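import Pool.Agent.L7h46.CT.Ivs

/-!
# Bad positions outside of the sums of the intervals, and good positions
-/

set_option autoImplicit false

open Finset Filter

namespace Pool.Agent.L7h46.CT

open Pool.Agent.H394R2.Ones (x B ep K K_mono x_zero)
open Pool.Agent.H726R3.Tup
open Pool.Agent.H726R3.FactDvd (rr)
open Pool.Agent.R474.AG (sparse)

section
variable {κ : Type} [Fintype κ] {b : ℕ} {y : κ → ℝ} {z : ℝ}

open Classical in
/-- the number of bad positions outside of the intervals -/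
theorem bad_card (hb : 2 ≤ b) (hy0 : ∀ k, 0 < y k) (hy1 : ∀ k, y k < 1) (hz0 : 0 < z)
    (halg : IsAlgebraic ℚ z) (hirr : Irrational z) (d : ℕ) (c : ℝ) (hc : 0 ≤ c) :
    ∃ C : ℝ, 0 ≤ C ∧ ∀ (n : ℕ) (ι : Type) [Fintype ι] (α β : ι → ℕ),
      (∀ m, m ≤ n → 1 ≤ rr (ff b y) (d + 1) m → ∃ f, α f ≤ m ∧ m ≤ β f) →
      (((range n).filter (fun m => (¬ ∃ f, α f ≤ m ∧ m ≤ β f) ∧
        UG b z (rr (ff b y) (d + 1)) (YY y ^ (d + 1)) m ≤ c * TM b y (d + 1) m)).card : ℝ) ≤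
        C * (1 + Real.log ((n : ℝ) + 1)) * (Fintype.card ι + 1) + (n : ℝ) / 2 := by
  obtain ⟨C, hC, hup⟩ := TM_upper hb hy0 hy1 d
  obtain ⟨L0, hpos⟩ := bad_pos3 hb hy0 hy1 hz0 halg hirr d c hc (1 / 2) (by norm_num)
    (by norm_num) hC hup
  have hb1 : (1 : ℝ) < b := by exact_mod_cast (by omega : 1 < b)
  have hb0 : (0 : ℝ) < b := by linarith
  have hlogb : 0 < Real.log b := Real.log_pos hb1
  set M : ℝ := ((Fintype.card κ * b + 1 : ℕ) : ℝ) with hM
  have hM1 : 1 ≤ M := by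
    rw [hM]
    exact_mod_cast (by omega : 1 ≤ Fintype.card κ * b + 1)
  set A0 : ℝ := Real.log ((c * C + 1) * M ^ d) with hA0
  have hMd : 1 ≤ M ^ d := one_le_pow₀ hM1
  have hcC : 0 ≤ c * C := mul_nonneg hc hC
  have hA1 : 1 ≤ (c * C + 1) * M ^ d := one_le_mul_of_one_le_of_one_le (by linarith) hMd
  have hA00 : 0 ≤ A0 := Real.log_nonneg hA1
  set C5 : ℝ := (A0 + d) / Real.log b + 2 + L0 with hC5
  have hL00 : (0 : ℝ) ≤ L0 := Nat.cast_nonneg _
  have hC50 : 0 ≤ C5 := by positivity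
  refine ⟨4 * C5 + 1, by positivity, fun N ι _ α β hcov => ?_⟩
  have hn0 : (0 : ℝ) ≤ N := Nat.cast_nonneg _
  have hℓ : 0 ≤ Real.log ((N : ℝ) + 1) := Real.log_nonneg (by linarith)
  set ℓ := Real.log ((N : ℝ) + 1) with hℓdef
  set V : ℝ := c * (C * (M * ((N : ℝ) + 1)) ^ d) with hV
  have hV0 : 0 ≤ V := by positivity
  have hV1 : V + 1 ≤ (c * C + 1) * M ^ d * ((N : ℝ) + 1) ^ d := by
    have h1 : (c * C + 1) * M ^ d * ((N : ℝ) + 1) ^ d = V + (M * ((N : ℝ) + 1)) ^ d := by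
      rw [hV, mul_pow]; ring
    rw [h1]
    have h3 : (1 : ℝ) ≤ (M * ((N : ℝ) + 1)) ^ d :=
      one_le_pow₀ (one_le_mul_of_one_le_of_one_le hM1 (by linarith))
    linarith
  have hlogV : Real.log (V + 1) ≤ A0 + d * ℓ := by
    calc Real.log (V + 1) ≤ Real.log ((c * C + 1) * M ^ d * ((N : ℝ) + 1) ^ d) :=
          Real.log_le_log (by linarith) hV1
      _ = A0 + d * ℓ := by
        rw [Real.log_mul (by linarith) (by positivity), Real.log_pow]
  set a' : ℕ := ⌊Real.log (V + 1) / Real.log b⌋₊ + 1 with ha'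
  have hlV0 : 0 ≤ Real.log (V + 1) := Real.log_nonneg (by linarith)
  have ha'1 : V < (b : ℝ) ^ a' := by
    have h1 : Real.log (V + 1) / Real.log b < a' := by
      rw [ha']; push_cast; exact Nat.lt_floor_add_one _
    rw [div_lt_iff₀ hlogb] at h1
    have h2 : Real.log (V + 1) < Real.log ((b : ℝ) ^ a') := by rw [Real.log_pow]; exact h1
    have h3 := (Real.log_lt_log_iff (by linarith) (by positivity)).mp h2
    linarith
  have ha'2 : (a' : ℝ) + 1 + L0 ≤ C5 * (1 + ℓ) := by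
    have h1 : (a' : ℝ) ≤ Real.log (V + 1) / Real.log b + 1 := by
      rw [ha']; push_cast
      have := Nat.floor_le (div_nonneg hlV0 hlogb.le)
      linarith
    have h2 : Real.log (V + 1) / Real.log b ≤ (A0 + d * ℓ) / Real.log b :=
      div_le_div_of_nonneg_right hlogV hlogb.le
    have h3 : (A0 + d * ℓ) / Real.log b ≤ (A0 + d) / Real.log b * (1 + ℓ) := by
      rw [div_mul_eq_mul_div]
      apply div_le_div_of_nonneg_right _ hlogb.le
      have : (0 : ℝ) ≤ d := Nat.cast_nonneg _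
      nlinarith
    have h5 : C5 * (1 + ℓ) = (A0 + d) / Real.log b * (1 + ℓ) + (2 + L0) * (1 + ℓ) := by
      rw [hC5]; ring
    have h6 : 2 + (L0 : ℝ) ≤ (2 + L0) * (1 + ℓ) := by nlinarith
    linarith
  have h1 := sparse (fun k => 1 ≤ rr (ff b y) (d + 1) k ∨ k = N)
    (fun m => m < N ∧ UG b z (rr (ff b y) (d + 1)) (YY y ^ (d + 1)) m ≤ c * TM b y (d + 1) m)
    α β N (a' + 1 + L0) N N (1 / 2) (by norm_num) (Or.inl (rr_zero_pos' _))
    (fun m hm hPm => by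
      rcases hPm with h | h
      · exact hcov m hm.le h
      · omega) le_rfl le_rfl (Or.inr rfl) (fun k h1 h2 => by omega) (by
      intro m j j' hjm hmj' _ hj _ hz hbad
      have hj1 : 1 ≤ rr (ff b y) (d + 1) j := by
        rcases hj with hj | hj
        · exact hj
        · exfalso
          have := hbad.1
          omega
      have hj'N : j' ≤ N := by
        by_contra hcon
        have := hz N (by have := hbad.1; omega) (by omega)
        exact this (Or.inr rfl)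
      rcases hpos a' N ha'1 m j j' hjm hmj' hj'N hj1 (fun k hk1 hk2 => by
        have := hz k hk1 hk2
        push Not at this
        have := this.1
        omega) hbad.2 with h9 | h9
      · left; omega
      · right
        push_cast
        linarith)
  have h2 : ((range N).filter (fun m => (¬ ∃ f, α f ≤ m ∧ m ≤ β f) ∧
        UG b z (rr (ff b y) (d + 1)) (YY y ^ (d + 1)) m ≤ c * TM b y (d + 1) m)).card ≤
      ((range N).filter (fun m => 1 ≤ m ∧ (m < N ∧ (¬ ∃ f, α f ≤ m ∧ m ≤ β f) ∧ (m < N ∧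
        UG b z (rr (ff b y) (d + 1)) (YY y ^ (d + 1)) m ≤ c * TM b y (d + 1) m)))).card + 1 := by
    have h3 : (range N).filter (fun m => (¬ ∃ f, α f ≤ m ∧ m ≤ β f) ∧
        UG b z (rr (ff b y) (d + 1)) (YY y ^ (d + 1)) m ≤ c * TM b y (d + 1) m) ⊆
        (range N).filter (fun m => 1 ≤ m ∧ (m < N ∧ (¬ ∃ f, α f ≤ m ∧ m ≤ β f) ∧ (m < N ∧
        UG b z (rr (ff b y) (d + 1)) (YY y ^ (d + 1)) m ≤ c * TM b y (d + 1) m))) ∪ range 1 := by
      intro m hm
      obtain ⟨hm1, hm2⟩ := mem_filter.mp hm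
      rw [mem_union]
      rcases Nat.lt_or_ge m 1 with h4 | h4
      · exact Or.inr (mem_range.mpr h4)
      · exact Or.inl (mem_filter.mpr ⟨hm1, h4, mem_range.1 hm1, hm2.1, mem_range.1 hm1, hm2.2⟩)
    have h4 := (card_le_card h3).trans (card_union_le _ _)
    rwa [card_range] at h4
  have h2' : (((range N).filter (fun m => (¬ ∃ f, α f ≤ m ∧ m ≤ β f) ∧
        UG b z (rr (ff b y) (d + 1)) (YY y ^ (d + 1)) m ≤ c * TM b y (d + 1) m)).card : ℝ) ≤
      ((range N).filter (fun m => 1 ≤ m ∧ (m < N ∧ (¬ ∃ f, α f ≤ m ∧ m ≤ β f) ∧ (m < N ∧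
        UG b z (rr (ff b y) (d + 1)) (YY y ^ (d + 1)) m ≤ c * TM b y (d + 1) m)))).card + 1 := by
    exact_mod_cast h2
  push_cast at h1
  set I : ℝ := (Fintype.card ι : ℝ) with hI
  have hI0 : 0 ≤ I := Nat.cast_nonneg _
  have ha0 : (0 : ℝ) ≤ (a' : ℝ) + 1 + L0 := by positivity
  have h5 : 2 * ((a' : ℝ) + 1 + L0) * (2 * I + 1) ≤ 2 * (C5 * (1 + ℓ)) * (2 * I + 1) := by
    apply mul_le_mul_of_nonneg_right _ (by positivity)
    linarith
  have h7 : (1 : ℝ) ≤ (1 + ℓ) * (I + 1) := by nlinarith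
  have h8 : (4 * C5 + 1) * (1 + ℓ) * (I + 1) =
      2 * (C5 * (1 + ℓ)) * (2 * I + 1) + 2 * (C5 * (1 + ℓ)) + (1 + ℓ) * (I + 1) := by ring
  rw [h8]
  have h9 : (((range N).filter (fun m => 1 ≤ m ∧ (m < N ∧ (¬ ∃ f, α f ≤ m ∧ m ≤ β f) ∧ (m < N ∧
        UG b z (rr (ff b y) (d + 1)) (YY y ^ (d + 1)) m ≤ c * TM b y (d + 1) m)))).card : ℝ) ≤
      2 * ((a' : ℝ) + 1 + L0) * (2 * I + 1) + 2 * ((a' : ℝ) + 1 + L0) + 1 / 2 * N := by
    convert h1
  linarith

/-- lower bound for the tail at good positions -/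
lemma good_live (hy0 : ∀ k, 0 < y k) (hy1 : ∀ k, y k < 1) (hb : 2 ≤ b) (hz0 : 0 < z) (d : ℕ)
    {q : ℕ} (hq : 1 ≤ q) {A : ℝ} {w : ℕ → ℤ}
    (hw : ∀ N, |(q * (z * YY y ^ (d + 1))) * (b : ℝ) ^ N - w N| ≤ A * TM b y (d + 1) N) (m : ℕ)
    (hm : ¬ UG b z (rr (ff b y) (d + 1)) (YY y ^ (d + 1)) m ≤ A * TM b y (d + 1) m) :
    1 / (2 * q) ≤ UG b z (rr (ff b y) (d + 1)) (YY y ^ (d + 1)) m := by
  have hTn := TM_nonneg hb hy0 hy1 (d + 1)
  have hqR : (1 : ℝ) ≤ q := by exact_mod_cast hq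
  push Not at hm
  set U := UG b z (rr (ff b y) (d + 1)) (YY y ^ (d + 1)) m with hU
  have hU0 : 0 ≤ U := UG_nonneg hz0 hTn m
  have hUq : U ≤ q * U := le_mul_of_one_le_left hU0 hqR
  set W : ℤ := w m - q * ∑ i ∈ range (m + 1),
    (rr (ff b y) (d + 1) i : ℤ) * B b z (m - i) with hW
  have hWe : (W : ℝ) = q * U - (q * (z * YY y ^ (d + 1)) * (b : ℝ) ^ m - w m) := by
    rw [hW, hU]
    unfold UG
    push_cast
    ring
  have h1 := abs_le.mp (hw m)
  have h2 : (0 : ℝ) < W := by rw [hWe]; linarith [h1.2]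
  have h3 : (1 : ℝ) ≤ W := by
    have : (0 : ℤ) < W := by exact_mod_cast h2
    exact_mod_cast (by omega : (1 : ℤ) ≤ W)
  rw [hWe] at h3
  rw [div_le_iff₀ (by linarith)]
  linarith [h1.1]

end

end Pool.Agent.L7h46.CT
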