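import Pool.Agent.L7h46.CT.Mult2

/-!
# Columns of digits of most multiples of a tuple of algebraic numbers

No hypothesis is assumed. Let `α_1, …, α_n` (`n ≥ 2`) be real algebraic numbers such that
`1, α_1, …, α_n` are linearly independent over `ℚ`, let `D` be the degree of the field which they
generate and let `s = D - n + 1`. The starting result `IndependentTuples` gives at least `c N ^ (1 / s)`
columns of digits different from a given column `e ∈ {0, b - 1}^n` among the first `N` columns of the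
digits of the tuple. For most of the multiples `(m α_1, …, m α_n)`, `m ≤ M`, the bound
`c N ^ (1 / s) (1 + log M) ^ (1 - 1 / s)` is proved here for all these columns `e` at once, uniformly
for `1 ≤ M ≤ b ^ N`. For instance, for the multiples of `(√2, √3, √6)` the exponent is `1 / 2`, and for
every `C`, almost all multiples have infinitely often at least `C √N` columns different from `e`.

Proof. By the covering theorem for the columns (`Pool.Agent.L7h46.CT.Tup`) there are many places after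
which some of the numbers `Q! α_j` has a nonzero digit within about `log M` places. At such a place
only few of the multiples `m α_j`, `m ≤ M`, are a little larger than an integer (pigeonhole
principle, `Pool.Agent.L7h46.MB.Arc`).
-/

set_option autoImplicit false

open Finset Filter Topology IntermediateField Module

namespace Pool.Agent.Results.MP_c8ecb2_nt.ColumnCountsOfMultiples

/-- the `k`-th digit of `x` after the point in base `b` -/
noncomputable def digit (b : ℕ) (x : ℝ) (k : ℕ) : ℤ := ⌊x * (b : ℝ) ^ k⌋ % (b : ℤ)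

/-- the number of `k ∈ [1, N]` for which the column of the `k`-th digits of the numbers `α j` is
not `e` -/
noncomputable def others {n : ℕ} (b : ℕ) (α : Fin n → ℝ) (e : Fin n → ℤ) (N : ℕ) : ℕ :=
  open Classical in ((Icc 1 N).filter (fun k => (fun j => digit b (α j) k) ≠ e)).card

open Classical in
/-- the number of the `m` in `[1, M]` which do not have the property `P` -/
noncomputable def exceptions (P : ℕ → Prop) (M : ℕ) : ℕ := ((Icc 1 M).filter (fun m => ¬ P m)).card

lemma exceptions_mono {P P' : ℕ → Prop} {M : ℕ} (h : ∀ m, 1 ≤ m → m ≤ M → P m → P' m) :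
    exceptions P' M ≤ exceptions P M := by
  classical
  unfold exceptions
  apply card_le_card
  intro m hm
  rw [mem_filter, mem_Icc] at hm ⊢
  exact ⟨hm.1, fun h1 => hm.2 (h m hm.1.1 hm.1.2 h1)⟩

/-- one exceptional set for infinitely many `n` -/
lemma exceptions_freq {P : ℕ → ℕ → Prop} {M E : ℕ} (h : ∀ᶠ n in atTop, exceptions (P n) M ≤ E) :
    exceptions (fun m => ∃ᶠ n in atTop, P n m) M ≤ E := by
  classical
  have h1 : ∀ᶠ n in atTop, ∀ m ∈ (Icc 1 M).filter (fun m => ¬ ∃ᶠ n in atTop, P n m), ¬ P n m := by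
    rw [Filter.eventually_all_finset]
    intro m hm
    exact not_frequently.1 (mem_filter.1 hm).2
  obtain ⟨n, hn1, hn2⟩ := (h.and h1).exists
  refine le_trans ?_ hn1
  unfold exceptions
  apply card_le_card
  intro m hm
  exact mem_filter.2 ⟨(mem_filter.1 hm).1, hn2 m hm⟩

lemma others_eq {n : ℕ} (b : ℕ) (α : Fin n → ℝ) (e : Fin n → ℤ) (N : ℕ) :
    Pool.Agent.L7h46.CT.othersT b α e N = others b α e N := by
  classical
  have h3 : (fun k => ∃ j, Pool.Agent.H820R3.DG.digit b (α j) k ≠ e j) =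
      fun k => (fun j => digit b (α j) k) ≠ e := by
    funext k
    apply propext
    rw [← not_iff_not]
    push Not
    constructor
    · intro h
      funext j
      exact h j
    · intro h j
      exact congrFun h j
  unfold Pool.Agent.L7h46.CT.othersT others
  simp only [h3]

/-- a bound with a positive power of `log M` for most `m` gives an arbitrarily large factor for
almost all `m` -/
lemma almost {P : ℝ → ℕ → ℕ → Prop} {s : ℝ} (hs : 1 < s) {b : ℕ} (hb : 2 ≤ b)
    (hP : ∀ (x y : ℝ) (N m : ℕ), x ≤ y → P y N m → P x N m)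
    (h : ∀ δ : ℝ, 0 < δ → ∃ c : ℝ, 0 < c ∧ ∃ N₀ : ℕ, ∀ N : ℕ, N₀ ≤ N → ∀ M : ℕ, 1 ≤ M → M ≤ b ^ N →
      (exceptions (fun m => P (c * ((N : ℝ) ^ (1 / s) * (1 + Real.log M) ^ (1 - 1 / s))) N m) M : ℝ) ≤
        δ * M) (C : ℝ) :
    Tendsto (fun M : ℕ => (exceptions (fun m => ∃ᶠ N : ℕ in atTop,
      P (C * (N : ℝ) ^ (1 / s)) N m) M : ℝ) / M) atTop (𝓝 0) := by
  have hexp : 0 < 1 - 1 / s := by
    rw [sub_pos, div_lt_one (by linarith)]
    exact hs
  rw [Metric.tendsto_atTop]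
  intro ε hε
  obtain ⟨c, hc, N₀, h0⟩ := h (ε / 2) (by positivity)
  -- `M` is so large that `(1 + log M) ^ (1 - 1 / s) ≥ C / c`
  have hlim : Tendsto (fun M : ℕ => (1 + Real.log (M : ℝ)) ^ (1 - 1 / s)) atTop atTop := by
    apply (tendsto_rpow_atTop hexp).comp
    apply tendsto_atTop_add_const_left
    exact Real.tendsto_log_atTop.comp tendsto_natCast_atTop_atTop
  obtain ⟨M₁, hM₁⟩ := eventually_atTop.1 (hlim.eventually_ge_atTop (C / c))
  refine ⟨max M₁ 1, fun M hM => ?_⟩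
  have hM1 : 1 ≤ M := (le_max_right _ _).trans hM
  have hM1r : (1 : ℝ) ≤ M := by exact_mod_cast hM1
  have hlog := hM₁ M ((le_max_left _ _).trans hM)
  set E : ℕ := ⌊ε / 2 * M⌋₊ with hE
  have h1 : exceptions (fun m => ∃ᶠ N : ℕ in atTop, P (C * (N : ℝ) ^ (1 / s)) N m) M ≤ E := by
    apply exceptions_freq
    have h2 : ∀ᶠ N : ℕ in atTop, M ≤ b ^ N := by
      filter_upwards [eventually_ge_atTop M] with N hN
      exact hN.trans (Nat.lt_pow_self (by omega)).le
    filter_upwards [h2, eventually_ge_atTop N₀] with N hN1 hN2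
    have h3 := h0 N hN2 M hM1 hN1
    apply Nat.le_floor
    refine le_trans (Nat.cast_le.2 (exceptions_mono ?_)) h3
    intro m _ _ h4
    refine hP _ _ N m ?_ h4
    rw [div_le_iff₀ hc] at hlog
    have h6 : (0 : ℝ) ≤ (N : ℝ) ^ (1 / s) := by positivity
    nlinarith
  have h2 : (exceptions (fun m => ∃ᶠ N : ℕ in atTop, P (C * (N : ℝ) ^ (1 / s)) N m) M : ℝ) ≤
      ε / 2 * M := by
    refine le_trans (Nat.cast_le.2 h1) ?_
    exact Nat.floor_le (by positivity)
  rw [Real.dist_eq, sub_zero, abs_of_nonneg (by positivity), div_lt_iff₀ (by linarith)]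
  nlinarith

lemma fieldVersion (b : ℕ) (hb : 2 ≤ b) (L : IntermediateField ℚ ℝ) (hL : FiniteDimensional ℚ L)
    (n : ℕ) (hn : 1 ≤ n) (α : Fin n → ℝ) (hα : ∀ j, Irrational (α j)) (hαL : ∀ j, α j ∈ L)
    (l : ℕ) (hl : 1 ≤ l) (hspan : ∀ v ∈ L, v ∈ (Submodule.span ℚ (insert 1 (Set.range α))) ^ l)
    (s : ℕ) (hs : s = l + 1) :
    (∀ δ : ℝ, 0 < δ → ∃ c : ℝ, 0 < c ∧ ∃ N₀ : ℕ, ∀ N : ℕ, N₀ ≤ N → ∀ M : ℕ, 1 ≤ M → M ≤ b ^ N →
      (exceptions (fun m => ∀ e : Fin n → ℤ, (∀ j, e j = 0 ∨ e j = b - 1) →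
        c * ((N : ℝ) ^ (1 / (s : ℝ)) * (1 + Real.log M) ^ (1 - 1 / (s : ℝ))) ≤
          others b (fun j => m * α j) e N) M : ℝ) ≤ δ * M) ∧
    (∀ C : ℝ, Tendsto (fun M : ℕ => (exceptions (fun m => ∃ᶠ N : ℕ in atTop,
      ∀ e : Fin n → ℤ, (∀ j, e j = 0 ∨ e j = b - 1) →
        C * (N : ℝ) ^ (1 / (s : ℝ)) ≤ others b (fun j => m * α j) e N) M : ℝ) / M) atTop (𝓝 0)) := by
  classical
  have : Nonempty (Fin n) := ⟨⟨0, hn⟩⟩
  obtain ⟨d, rfl⟩ : ∃ d, l = d + 1 := ⟨l - 1, by omega⟩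
  obtain rfl : s = d + 2 := by omega
  have h1 : ∀ δ : ℝ, 0 < δ → ∃ c : ℝ, 0 < c ∧ ∃ N₀ : ℕ, ∀ N : ℕ, N₀ ≤ N → ∀ M : ℕ, 1 ≤ M →
      M ≤ b ^ N → (exceptions (fun m => ∀ e : Fin n → ℤ, (∀ j, e j = 0 ∨ e j = b - 1) →
        c * ((N : ℝ) ^ (1 / ((d + 2 : ℕ) : ℝ)) * (1 + Real.log M) ^ (1 - 1 / ((d + 2 : ℕ) : ℝ))) ≤
          others b (fun j => m * α j) e N) M : ℝ) ≤ δ * M := by
    intro δ hδ
    obtain ⟨c, hc, N₀, h⟩ := Pool.Agent.L7h46.CT.main_all hb L hα hαL d hspan δ hδ
    refine ⟨c, hc, N₀, fun N hN M hM1 hM2 => le_trans (Nat.cast_le.2 ?_) (h N hN M hM1 hM2)⟩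
    unfold exceptions
    apply card_le_card
    intro m hm
    rw [mem_filter] at hm ⊢
    refine ⟨hm.1, fun h => hm.2 fun e he => ?_⟩
    rw [← others_eq]
    exact h e he
  refine ⟨h1, ?_⟩
  have hs1 : (1 : ℝ) < ((d + 2 : ℕ) : ℝ) := by
    push_cast
    have : (0 : ℝ) ≤ d := Nat.cast_nonneg _
    linarith
  exact almost (P := fun x N m => ∀ e : Fin n → ℤ, (∀ j, e j = 0 ∨ e j = b - 1) →
    x ≤ others b (fun j => m * α j) e N) hs1 hb (fun x y N m hxy h e he => hxy.trans (h e he)) h1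

/-- Let `b ≥ 2` and `n ≥ 2`. (1) Let `α_1, …, α_n` be real algebraic numbers such that
`1, α_1, …, α_n` are linearly independent over `ℚ`, let `D` be the degree of the field which they
generate and `s = D - n + 1`. For every `δ > 0` there are `c > 0` and `N₀` such that for all `N ≥ N₀`
and `1 ≤ M ≤ b ^ N`, for all but at most `δ M` of the `m ≤ M`, for every column `e` with entries in
`{0, b - 1}` at least `c N ^ (1 / s) (1 + log M) ^ (1 - 1 / s)` of the first `N` columns of digits of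
`(m α_1, …, m α_n)` are different from `e`. For every `C`, for all but `o(M)` of the `m ≤ M` there are
infinitely many `N` such that at least `C N ^ (1 / s)` of the first `N` columns are different from `e`,
for every `e`. (2) The same with `s = l + 1` if the `α_j` are irrational elements of a real number
field `L` all of whose elements are rational linear combinations of products of at most `l ≥ 1` of
the numbers `α_j`. -/
theorem result (b : ℕ) (hb : 2 ≤ b) (n : ℕ) (hn : 2 ≤ n) (α : Fin n → ℝ) (s : ℕ)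
    (hα : ((∀ j, IsAlgebraic ℚ (α j)) ∧ LinearIndependent ℚ (Fin.cons 1 α : Fin (n + 1) → ℝ) ∧
        s = finrank ℚ (adjoin ℚ (Set.range α)) - n + 1) ∨
      ((∀ j, Irrational (α j)) ∧ ∃ L : IntermediateField ℚ ℝ, FiniteDimensional ℚ L ∧
        (∀ j, α j ∈ L) ∧ ∃ l : ℕ, 1 ≤ l ∧
        (∀ v ∈ L, v ∈ (Submodule.span ℚ (insert 1 (Set.range α))) ^ l) ∧ s = l + 1)) :
    (∀ δ : ℝ, 0 < δ → ∃ c : ℝ, 0 < c ∧ ∃ N₀ : ℕ, ∀ N : ℕ, N₀ ≤ N → ∀ M : ℕ, 1 ≤ M → M ≤ b ^ N →
      (exceptions (fun m => ∀ e : Fin n → ℤ, (∀ j, e j = 0 ∨ e j = b - 1) →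
        c * ((N : ℝ) ^ (1 / (s : ℝ)) * (1 + Real.log M) ^ (1 - 1 / (s : ℝ))) ≤
          others b (fun j => m * α j) e N) M : ℝ) ≤ δ * M) ∧
    (∀ C : ℝ, Tendsto (fun M : ℕ => (exceptions (fun m => ∃ᶠ N : ℕ in atTop,
      ∀ e : Fin n → ℤ, (∀ j, e j = 0 ∨ e j = b - 1) →
        C * (N : ℝ) ^ (1 / (s : ℝ)) ≤ others b (fun j => m * α j) e N) M : ℝ) / M) atTop (𝓝 0)) := by
  rcases hα with ⟨halg, hli, hs⟩ | ⟨hirr, L, hL, hαL, l, hl, hspan, hs⟩
  · have hcard := Pool.Agent.H726R3.Tup.card_le halg hli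
    have hmem : ∀ k, α k ∈ adjoin ℚ (Set.range α) := fun k => subset_adjoin ℚ _ ⟨k, rfl⟩
    exact fieldVersion b hb _ (Pool.Agent.H726R3.Tup.fd_L halg) n (by omega) α
      (Pool.Agent.H726R3.Tup.irr_of_li hli) hmem _ (by omega)
      (Pool.Agent.H726R3.Tup.reach halg hli) s hs
  · exact fieldVersion b hb L hL n (by omega) α hirr hαL l hl hspan s hs

end Pool.Agent.Results.MP_c8ecb2_nt.ColumnCountsOfMultiples
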