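import Pool.Agent.L7h46.CT.Bad

/-!
# The covering inequality for tuples
-/

set_option autoImplicit false

open Finset Filter

namespace Pool.Agent.L7h46.CT

open Pool.Agent.H394R2.Ones (x B ep K K_mono x_zero)
open Pool.Agent.H726R3.Tup
open Pool.Agent.H726R3.FactDvd (rr)
open Pool.Agent.H726R3.Joint (X K_tendsto)
open Pool.Agent.R474.AG (InQ card_inQ)

section
variable {κ : Type} [Fintype κ] {b : ℕ} {y : κ → ℝ} {z : ℝ}

lemma ff_le (hb : 2 ≤ b) (i : ℕ) : ff b y i ≤ Fintype.card κ * b + 1 := by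
  unfold ff X
  split_ifs
  · omega
  · have : ∑ k, x b (y k) i ≤ ∑ _k : κ, b := by
      refine sum_le_sum fun k _ => ?_
      unfold x; exact (Nat.mod_lt _ (by omega)).le
    rw [sum_const, card_univ, smul_eq_mul] at this
    omega

/-- the sum of the tails -/
lemma sum_UG (hb : 2 ≤ b) (hy0 : ∀ k, 0 < y k) (hy1 : ∀ k, y k < 1) (hz0 : 0 < z) (hz1 : z < 1)
    (d : ℕ) {C : ℝ} (hC : 0 ≤ C) (hup : ∀ N, TM b y (d + 1) N ≤ C * (GG (ff b y) N : ℝ) ^ d)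
    (n : ℕ) (hK : 1 ≤ K b z n) :
    ∑ m ∈ range n, UG b z (rr (ff b y) (d + 1)) (YY y ^ (d + 1)) m ≤
      (2 + C) * K b z n * (GG (ff b y) n : ℝ) ^ (d + 1) := by
  have hb2 : (2 : ℝ) ≤ b := by exact_mod_cast hb
  have hTn := TM_nonneg hb hy0 hy1 (d + 1)
  have h1 := UG_sum (g := rr (ff b y) (d + 1)) (v := YY y ^ (d + 1)) hb hz0 hz1 hTn n
  have h2 : (GG (rr (ff b y) (d + 1)) n : ℝ) ≤ (GG (ff b y) n : ℝ) ^ (d + 1) := by
    exact_mod_cast rr_sum' (ff b y) (d + 1) n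
  have hg1 : (1 : ℝ) ≤ GG (ff b y) n := by exact_mod_cast KF_pos n
  have h3 : TG b (rr (ff b y) (d + 1)) (YY y ^ (d + 1)) n ≤ C * (GG (ff b y) n : ℝ) ^ (d + 1) := by
    refine (hup n).trans (mul_le_mul_of_nonneg_left ?_ hC)
    exact pow_le_pow_right₀ hg1 (Nat.le_succ d)
  have hS0 : 0 ≤ ∑ m ∈ range n, UG b z (rr (ff b y) (d + 1)) (YY y ^ (d + 1)) m :=
    sum_nonneg fun m _ => UG_nonneg hz0 hTn m
  have hK1 : (1 : ℝ) ≤ K b z n := by exact_mod_cast hK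
  have hF : (1 : ℝ) ≤ (GG (ff b y) n : ℝ) ^ (d + 1) := one_le_pow₀ hg1
  set S := ∑ m ∈ range n, UG b z (rr (ff b y) (d + 1)) (YY y ^ (d + 1)) m with hS
  set F : ℝ := (GG (ff b y) n : ℝ) ^ (d + 1) with hFd
  set G : ℝ := (GG (rr (ff b y) (d + 1)) n : ℝ) with hG
  have h4 : (K b z n : ℝ) * G ≤ K b z n * F := mul_le_mul_of_nonneg_left h2 (by linarith)
  have h5 : S ≤ ((b : ℝ) - 1) * S := le_mul_of_one_le_left hS0 (by linarith)
  have h6 : (1 + C) * F ≤ (1 + C) * (K b z n * F) := by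
    apply mul_le_mul_of_nonneg_left _ (by linarith)
    exact le_mul_of_one_le_left (by linarith) hK1
  calc S ≤ (K b z n : ℝ) * F + F + C * F := by linarith
    _ ≤ (2 + C) * K b z n * F := by linarith

theorem cover_two (hb : 2 ≤ b) (hy0 : ∀ k, 0 < y k) (hy1 : ∀ k, y k < 1) (hz0 : 0 < z)
    (hz1 : z < 1) (halg : IsAlgebraic ℚ z) (hirr : Irrational z) (d : ℕ) {q : ℕ} (hq : 1 ≤ q)
    (hD : Dom b y (d + 1) (q * (z * YY y ^ (d + 1)))) :
    ∃ c0 : ℝ, 0 < c0 ∧ ∃ n0 : ℕ, ∀ (n K K' : ℕ) (u w : Fin K → ℕ) (u' w' : Fin K' → ℕ), n0 ≤ n →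
      (∀ i, u i ≤ w i) → (∀ i, u' i ≤ w' i) →
      (∀ k, k ≤ n → 1 ≤ ff b y k → ∃ i, u i ≤ k ∧ k ≤ w i) →
      (∀ k, k ≤ n → 1 ≤ x b z k → ∃ i, u' i ≤ k ∧ k ≤ w' i) →
      c0 * n ≤ (K : ℝ) ^ (d + 1) * ((∑ j, (w' j + 1 - u' j) : ℕ) : ℝ) +
        K' * (K : ℝ) ^ d * ((∑ j, (w j + 1 - u j) : ℕ) : ℝ) := by
  classical
  obtain ⟨A, hA, w0, hw0⟩ := hD
  obtain ⟨C1, hC1, hbad⟩ := bad_card hb hy0 hy1 hz0 halg hirr d A hA
  obtain ⟨C, hC, hup⟩ := TM_upper hb hy0 hy1 d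
  obtain ⟨CL, hCL, hlogK⟩ := log_le_K hb hz0 halg hirr
  have hK := (K_tendsto hb hz0 hirr).eventually_ge_atTop 1
  obtain ⟨n0, hn0⟩ := eventually_atTop.1 (hlogK.and hK)
  have hb2 : (2 : ℝ) ≤ b := by exact_mod_cast hb
  have hqR : (1 : ℝ) ≤ q := by exact_mod_cast hq
  set c2 : ℝ := 1 / (2 * q) with hc2
  have hc20 : 0 < c2 := by positivity
  set H : ℕ := Fintype.card κ * b + 1 with hH
  have hHR : (1 : ℝ) ≤ H := by exact_mod_cast (by omega : 1 ≤ H)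
  set C3 : ℝ := (2 + C) * b * (H : ℝ) ^ (d + 1) / c2 with hC3
  have hC30 : 0 ≤ C3 := by positivity
  set E : ℝ := 2 * C1 * CL * b + 1 + C3 + 6 * (d + 1) with hE
  have hE0 : 0 < E := by positivity
  refine ⟨1 / (2 * E), by positivity, n0, fun n K K' u w u' w' hn huw huw' hcov hcov' => ?_⟩
  obtain ⟨hlog, hKz1⟩ := hn0 n hn
  have hn0' : (0 : ℝ) ≤ n := Nat.cast_nonneg _
  have hℓ : 0 ≤ Real.log ((n : ℝ) + 1) := Real.log_nonneg (by linarith)
  set ℓ := Real.log ((n : ℝ) + 1) with hℓdef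
  set W : ℕ := ∑ j, (w j + 1 - u j) with hW
  set W' : ℕ := ∑ j, (w' j + 1 - u' j) with hW'
  -- the families are not empty
  obtain ⟨i0, -, -⟩ := hcov 0 (Nat.zero_le _) (by rw [ff_zero])
  have hK1 : 1 ≤ K := by have := i0.2; omega
  have hKW : K ≤ W := by
    have h1 : ∑ j : Fin K, 1 ≤ ∑ j, (w j + 1 - u j) := sum_le_sum fun j _ => by
      have := huw j
      omega
    simpa using h1
  have hKz : Pool.Agent.H394R2.Ones.K b z n ≤ b * W' :=
    sum_cover (x b z) b n (fun k => by unfold x; exact (Nat.mod_lt _ (by omega)).le) u' w' huw'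
      hcov'
  have hK'1 : 1 ≤ K' := by
    by_contra hcon
    have h0 : K' = 0 := by omega
    subst h0
    have : W' = 0 := by rw [hW']; simp
    rw [this, mul_zero] at hKz
    omega
  have hFn : GG (ff b y) n ≤ H * W := sum_cover (ff b y) H n (ff_le hb) u w huw hcov
  -- real forms
  have hKR : (1 : ℝ) ≤ K := by exact_mod_cast hK1
  have hK'R : (1 : ℝ) ≤ K' := by exact_mod_cast hK'1
  have hWR : (1 : ℝ) ≤ W := by exact_mod_cast hK1.trans hKW
  have hW'0 : (0 : ℝ) ≤ W' := Nat.cast_nonneg _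
  have hKzR : (Pool.Agent.H394R2.Ones.K b z n : ℝ) ≤ b * W' := by exact_mod_cast hKz
  have hKz1R : (1 : ℝ) ≤ Pool.Agent.H394R2.Ones.K b z n := by exact_mod_cast hKz1
  have hFR : (GG (ff b y) n : ℝ) ≤ H * W := by exact_mod_cast hFn
  set P1 : ℝ := (K : ℝ) ^ (d + 1) * W' with hP1
  set P2 : ℝ := K' * (K : ℝ) ^ d * W with hP2
  have hP10 : 0 ≤ P1 := by positivity
  have hP20 : 0 ≤ P2 := by positivity
  -- the length `M`
  set M : ℕ := (d + 1) * (W / K + 1) with hM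
  have hq1 : W < K * (W / K + 1) := by
    have := Nat.lt_mul_div_succ W (show 0 < K by omega)
    simpa [Nat.succ_eq_add_one] using this
  have hq2 : K * (W / K) ≤ W := Nat.mul_div_le W K
  have hbM : (W : ℝ) ^ (d + 1) ≤ (b : ℝ) ^ M * (K : ℝ) ^ (d + 1) := by
    have h1 : (W : ℝ) ≤ K * ((W / K : ℕ) + 1) := by exact_mod_cast hq1.le
    have h2 : (((W / K : ℕ) : ℝ) + 1) ≤ (b : ℝ) ^ (W / K + 1) := by
      have h3 : W / K + 1 < 2 ^ (W / K + 1) := Nat.lt_two_pow_self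
      have h4 : (((W / K : ℕ) : ℝ) + 1) ≤ (2 : ℝ) ^ (W / K + 1) := by exact_mod_cast h3.le
      exact h4.trans (pow_le_pow_left₀ (by norm_num) hb2 _)
    calc (W : ℝ) ^ (d + 1) ≤ (K * ((W / K : ℕ) + 1)) ^ (d + 1) :=
          pow_le_pow_left₀ (by positivity) h1 _
      _ ≤ (K * (b : ℝ) ^ (W / K + 1)) ^ (d + 1) := by gcongr
      _ = (b : ℝ) ^ M * (K : ℝ) ^ (d + 1) := by rw [mul_pow, ← pow_mul, hM, mul_comm (d + 1)]; ring
  -- the live positions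
  set U := UG b z (rr (ff b y) (d + 1)) (YY y ^ (d + 1)) with hU
  have hTn := TM_nonneg hb hy0 hy1 (d + 1)
  have hS := sum_UG hb hy0 hy1 hz0 hz1 d hC hup n hKz1
  have hlive := live_card hb hz0 hz1 (rr (ff b y) (d + 1)) (YY y ^ (d + 1)) hTn c2 hc20 n M _ hS
  have hnear : ((range n).filter (fun m => ∃ k, m ≤ k ∧ k ≤ m + M ∧ k ≤ n ∧
      1 ≤ RZ b z (rr (ff b y) (d + 1)) k)).card ≤
      K ^ (d + 1) * W' + (d + 1) * (K' * K ^ d) * W + K' * K ^ (d + 1) * M := by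
    refine le_trans (card_le_card ?_) ((near_card
      (fun f : Fin K' × (Fin (d + 1) → Fin K) => u' f.1 + ∑ i, u (f.2 i))
      (fun f => w' f.1 + ∑ i, w (f.2 i))
      (fun f => Nat.add_le_add (huw' _) (sum_le_sum fun i _ => huw _)) M n).trans
      (pair_len u w u' w' huw huw' d M))
    intro m hm
    obtain ⟨h1, k, h2, h3, h4, h5⟩ := mem_filter.1 hm
    exact mem_filter.2 ⟨h1, k, h2, h3, supp_RZ u w u' w' n hcov hcov' d k h4 h5⟩
  have hbad' := hbad n (Fin (d + 1) → Fin K) (fun f => ∑ i, u (f i)) (fun f => ∑ i, w (f i))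
    (fun m h1 h2 => supp_ff u w n hcov (d + 1) m h1 h2)
  have hQ := card_inQ u w huw d n
  rw [← hW] at hQ
  rw [Fintype.card_fun, Fintype.card_fin, Fintype.card_fin] at hbad'
  have hall : n ≤ ((range n).filter (fun m => InQ u w (d + 1) m)).card +
      ((range n).filter (fun m => (¬ ∃ f : Fin (d + 1) → Fin K,
        (fun f : Fin (d + 1) → Fin K => ∑ i, u (f i)) f ≤ m ∧
        m ≤ (fun f : Fin (d + 1) → Fin K => ∑ i, w (f i)) f) ∧
        U m ≤ A * TM b y (d + 1) m)).card +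
      ((range n).filter (fun m => c2 ≤ U m)).card := by
    have hsub : range n ⊆ (((range n).filter (fun m => InQ u w (d + 1) m)) ∪
      ((range n).filter (fun m => (¬ ∃ f : Fin (d + 1) → Fin K,
        (fun f : Fin (d + 1) → Fin K => ∑ i, u (f i)) f ≤ m ∧
        m ≤ (fun f : Fin (d + 1) → Fin K => ∑ i, w (f i)) f) ∧
        U m ≤ A * TM b y (d + 1) m))) ∪
      ((range n).filter (fun m => c2 ≤ U m)) := by
      intro m hm
      rw [mem_union, mem_union]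
      by_cases h1 : InQ u w (d + 1) m
      · exact Or.inl (Or.inl (mem_filter.2 ⟨hm, h1⟩))
      · by_cases h2 : U m ≤ A * TM b y (d + 1) m
        · exact Or.inl (Or.inr (mem_filter.2 ⟨hm, h1, h2⟩))
        · exact Or.inr (mem_filter.2 ⟨hm, good_live hy0 hy1 hb hz0 d hq hw0 m h2⟩)
    have h1 := (card_le_card hsub).trans ((card_union_le _ _).trans
      (Nat.add_le_add_right (card_union_le _ _) _))
    rwa [card_range] at h1
  have hallR : (n : ℝ) ≤ (((range n).filter (fun m => InQ u w (d + 1) m)).card : ℝ) +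
      (((range n).filter (fun m => (¬ ∃ f : Fin (d + 1) → Fin K,
        (fun f : Fin (d + 1) → Fin K => ∑ i, u (f i)) f ≤ m ∧
        m ≤ (fun f : Fin (d + 1) → Fin K => ∑ i, w (f i)) f) ∧
        U m ≤ A * TM b y (d + 1) m)).card : ℝ) +
      (((range n).filter (fun m => c2 ≤ U m)).card : ℝ) := by
    exact_mod_cast hall
  -- numerics
  have hQ' : (((range n).filter (fun m => InQ u w (d + 1) m)).card : ℝ) ≤ (d + 1) * P2 := by
    have h1 : (((range n).filter (fun m => InQ u w (d + 1) m)).card : ℝ) ≤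
      ((d : ℝ) + 1) * (K : ℝ) ^ d * W := by exact_mod_cast hQ
    have h2 : (K : ℝ) ^ d * W ≤ P2 := by
      rw [hP2, mul_assoc]
      exact le_mul_of_one_le_left (by positivity) hK'R
    calc _ ≤ ((d : ℝ) + 1) * (K : ℝ) ^ d * W := h1
      _ = ((d : ℝ) + 1) * ((K : ℝ) ^ d * W) := by ring
      _ ≤ _ := by gcongr
  have hKM : (K' : ℝ) * (K : ℝ) ^ (d + 1) * M ≤ 2 * (d + 1) * P2 := by
    have h1 : K * M ≤ (d + 1) * (2 * W) := by
      rw [hM]
      calc K * ((d + 1) * (W / K + 1)) = (d + 1) * (K * (W / K) + K) := by ring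
        _ ≤ (d + 1) * (2 * W) := Nat.mul_le_mul_left _ (by omega)
    have h2 : (K : ℝ) * M ≤ (d + 1) * (2 * W) := by exact_mod_cast h1
    calc (K' : ℝ) * (K : ℝ) ^ (d + 1) * M = K' * (K : ℝ) ^ d * (K * M) := by ring
      _ ≤ K' * (K : ℝ) ^ d * ((d + 1) * (2 * W)) := by gcongr
      _ = 2 * (d + 1) * P2 := by rw [hP2]; ring
  have hMR : (M : ℝ) ≤ 2 * (d + 1) * P2 := by
    have h1 : (M : ℝ) ≤ K' * (K : ℝ) ^ (d + 1) * M := by
      have h2 : (1 : ℝ) ≤ (K : ℝ) ^ (d + 1) := one_le_pow₀ hKR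
      have h3 : (1 : ℝ) ≤ K' * (K : ℝ) ^ (d + 1) := one_le_mul_of_one_le_of_one_le hK'R h2
      exact le_mul_of_one_le_left (Nat.cast_nonneg _) h3
    exact h1.trans hKM
  have hnearR : (((range n).filter (fun m => ∃ k, m ≤ k ∧ k ≤ m + M ∧ k ≤ n ∧
      1 ≤ RZ b z (rr (ff b y) (d + 1)) k)).card : ℝ) ≤ P1 + (d + 1) * P2 + 2 * (d + 1) * P2 := by
    have h1 : (((range n).filter (fun m => ∃ k, m ≤ k ∧ k ≤ m + M ∧ k ≤ n ∧
      1 ≤ RZ b z (rr (ff b y) (d + 1)) k)).card : ℝ) ≤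
      (K : ℝ) ^ (d + 1) * W' + (d + 1) * (K' * (K : ℝ) ^ d) * W + K' * (K : ℝ) ^ (d + 1) * M := by
      exact_mod_cast hnear
    refine h1.trans ?_
    have h2 : ((d : ℝ) + 1) * (K' * (K : ℝ) ^ d) * W = (d + 1) * P2 := by rw [hP2]; ring
    rw [h2]
    linarith
  have hlast : (2 + C) * (Pool.Agent.H394R2.Ones.K b z n) * (GG (ff b y) n : ℝ) ^ (d + 1) /
      ((b : ℝ) ^ M * c2) ≤ C3 * P1 := by
    rw [div_le_iff₀ (by positivity)]
    have h1 : (GG (ff b y) n : ℝ) ^ (d + 1) ≤ (H : ℝ) ^ (d + 1) * ((b : ℝ) ^ M * (K : ℝ) ^ (d + 1)) := by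
      calc (GG (ff b y) n : ℝ) ^ (d + 1) ≤ (H * W) ^ (d + 1) :=
            pow_le_pow_left₀ (Nat.cast_nonneg _) hFR _
        _ = (H : ℝ) ^ (d + 1) * (W : ℝ) ^ (d + 1) := by rw [mul_pow]
        _ ≤ _ := by gcongr
    calc (2 + C) * (Pool.Agent.H394R2.Ones.K b z n) * (GG (ff b y) n : ℝ) ^ (d + 1)
        ≤ (2 + C) * (b * W') * ((H : ℝ) ^ (d + 1) * ((b : ℝ) ^ M * (K : ℝ) ^ (d + 1))) := by
          gcongr
      _ = C3 * P1 * ((b : ℝ) ^ M * c2) := by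
          rw [hC3, hP1]
          field_simp
  have hbadR : C1 * (1 + ℓ) * (((K ^ (d + 1) : ℕ) : ℝ) + 1) ≤ 2 * C1 * CL * b * P1 := by
    have h1 : (1 : ℝ) ≤ (K : ℝ) ^ (d + 1) := one_le_pow₀ hKR
    have h2 : 1 + ℓ ≤ CL * (b * W') := hlog.trans (mul_le_mul_of_nonneg_left hKzR hCL.le)
    push_cast
    calc C1 * (1 + ℓ) * ((K : ℝ) ^ (d + 1) + 1) ≤
          C1 * (CL * (b * W')) * ((K : ℝ) ^ (d + 1) + (K : ℝ) ^ (d + 1)) := by gcongr
      _ = 2 * C1 * CL * b * P1 := by rw [hP1]; ring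
  have hfin : (n : ℝ) / 2 ≤ E * (P1 + P2) := by
    have h1 : (n : ℝ) / 2 ≤ (d + 1) * P2 + 2 * C1 * CL * b * P1 +
        ((P1 + (d + 1) * P2 + 2 * (d + 1) * P2) + 2 * (d + 1) * P2 + C3 * P1) := by
      linarith
    have h2 : 0 ≤ (6 * ((d : ℝ) + 1)) * P1 := by positivity
    have h3 : 0 ≤ (2 * C1 * CL * b + 1 + C3) * P2 := by positivity
    rw [hE]
    linarith
  rw [div_mul_eq_mul_div, one_mul, div_le_iff₀ (by positivity)]
  linarith

end

end Pool.Agent.L7h46.CT
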