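import Pool.Agent.R474.AG.BadG
import Pool.Agent.H726R3.Tup5

/-!
# Sums of two families of intervals
-/

set_option autoImplicit false

open Finset

namespace Pool.Agent.L7h46.CT

open Pool.Agent.H394R2.Ones (x B ep K K_mono x_zero)
open Pool.Agent.H726R3.Tup
open Pool.Agent.H726R3.FactDvd (rr)
open Pool.Agent.R474.AG (InQ sum_funs)

lemma rr_eq (f : ℕ → ℕ) (d : ℕ) : ∀ m, rr f d m = Pool.Agent.H820R3.DG.rr f d m := by
  induction d with
  | zero => intro m; rfl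
  | succ d ih =>
    intro m
    show ∑ p ∈ antidiagonal m, f p.1 * rr f d p.2 =
      ∑ p ∈ antidiagonal m, f p.1 * Pool.Agent.H820R3.DG.rr f d p.2
    exact sum_congr rfl fun p _ => by rw [ih]

open Classical in
/-- the number of positions near a family of intervals -/
lemma near_card {ι : Type} [Fintype ι] (α β : ι → ℕ) (hαβ : ∀ f, α f ≤ β f) (M n : ℕ) :
    ((range n).filter (fun m => ∃ k, m ≤ k ∧ k ≤ m + M ∧ ∃ f, α f ≤ k ∧ k ≤ β f)).card ≤
      ∑ f, (β f + 1 - α f + M) := by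
  have hsub : (range n).filter (fun m => ∃ k, m ≤ k ∧ k ≤ m + M ∧ ∃ f, α f ≤ k ∧ k ≤ β f) ⊆
      (univ : Finset ι).biUnion (fun f => Icc (α f - M) (β f)) := by
    intro m hm
    obtain ⟨-, k, hk1, hk2, f, hf1, hf2⟩ := mem_filter.1 hm
    exact mem_biUnion.2 ⟨f, mem_univ _, mem_Icc.2 ⟨by omega, by omega⟩⟩
  refine (card_le_card hsub).trans (card_biUnion_le.trans (sum_le_sum fun f _ => ?_))
  rw [Nat.card_Icc]
  have := hαβ f
  omega

/-- the sum of a bounded function with covered support -/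
lemma sum_cover (g : ℕ → ℕ) (H n : ℕ) (hH : ∀ k, g k ≤ H) {K : ℕ} (u w : Fin K → ℕ)
    (huw : ∀ i, u i ≤ w i) (hcov : ∀ k, k ≤ n → 1 ≤ g k → ∃ i, u i ≤ k ∧ k ≤ w i) :
    ∑ i ∈ range (n + 1), g i ≤ H * ∑ j, (w j + 1 - u j) := by
  classical
  have h2 := near_card u w huw 0 (n + 1)
  simp only [add_zero] at h2
  refine le_trans ?_ (Nat.mul_le_mul_left H h2)
  rw [card_filter, mul_sum]
  refine sum_le_sum fun i hi => ?_
  split_ifs with h
  · rw [mul_one]; exact hH i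
  · rw [mul_zero, Nat.le_zero]
    by_contra hne
    obtain ⟨j, hj1, hj2⟩ := hcov i (by have := mem_range.1 hi; omega) (by omega)
    exact h ⟨i, le_rfl, le_rfl, j, hj1, hj2⟩

/-- the total length of the sums of one interval of the first family and `d + 1` intervals of the
second one -/
lemma pair_len {K K' : ℕ} (u w : Fin K → ℕ) (u' w' : Fin K' → ℕ) (huw : ∀ i, u i ≤ w i)
    (huw' : ∀ i, u' i ≤ w' i) (d M : ℕ) :
    ∑ f : Fin K' × (Fin (d + 1) → Fin K),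
      (w' f.1 + ∑ i, w (f.2 i) + 1 - (u' f.1 + ∑ i, u (f.2 i)) + M) ≤
      K ^ (d + 1) * ∑ j, (w' j + 1 - u' j) + (d + 1) * (K' * K ^ d) * ∑ j, (w j + 1 - u j) +
        K' * K ^ (d + 1) * M := by
  have h1 : ∀ f : Fin K' × (Fin (d + 1) → Fin K),
      w' f.1 + ∑ i, w (f.2 i) + 1 - (u' f.1 + ∑ i, u (f.2 i)) + M =
      (w' f.1 + 1 - u' f.1) + ∑ i, (w (f.2 i) - u (f.2 i)) + M := by
    intro f
    have h2 : ∑ i, w (f.2 i) = ∑ i, u (f.2 i) + ∑ i, (w (f.2 i) - u (f.2 i)) := by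
      rw [← sum_add_distrib]
      refine sum_congr rfl fun i _ => ?_
      have := huw (f.2 i)
      omega
    have := huw' f.1
    omega
  simp only [h1]
  rw [sum_add_distrib, sum_add_distrib]
  have e1 : ∑ f : Fin K' × (Fin (d + 1) → Fin K), (w' f.1 + 1 - u' f.1) =
      K ^ (d + 1) * ∑ j, (w' j + 1 - u' j) := by
    rw [Fintype.sum_prod_type]
    simp only [sum_const, card_univ, Fintype.card_fun, Fintype.card_fin, smul_eq_mul]
    rw [mul_sum]
  have e2 : ∑ f : Fin K' × (Fin (d + 1) → Fin K), ∑ i, (w (f.2 i) - u (f.2 i)) =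
      (d + 1) * (K' * K ^ d) * ∑ j, (w j - u j) := by
    rw [Fintype.sum_prod_type]
    simp only [sum_funs (fun j => w j - u j) d]
    simp only [sum_const, card_univ, Fintype.card_fin, smul_eq_mul]
    ring
  have e3 : ∑ _f : Fin K' × (Fin (d + 1) → Fin K), M = K' * K ^ (d + 1) * M := by
    simp only [sum_const, card_univ, Fintype.card_prod, Fintype.card_fun, Fintype.card_fin,
      smul_eq_mul]
  rw [e1, e2, e3]
  have h3 : ∑ j, (w j - u j) ≤ ∑ j, (w j + 1 - u j) := sum_le_sum fun j _ => by omega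
  have h4 := Nat.mul_le_mul_left ((d + 1) * (K' * K ^ d)) h3
  omega

section
variable {κ : Type} [Fintype κ] {b : ℕ} {y : κ → ℝ} {z : ℝ}

lemma supp_ff {K : ℕ} (u w : Fin K → ℕ) (n : ℕ)
    (hcov : ∀ k, k ≤ n → 1 ≤ ff b y k → ∃ i, u i ≤ k ∧ k ≤ w i) (d m : ℕ) (hm : m ≤ n)
    (h : 1 ≤ rr (ff b y) d m) : ∃ f : Fin d → Fin K, ∑ i, u (f i) ≤ m ∧ m ≤ ∑ i, w (f i) := by
  rw [rr_eq] at h
  exact Pool.Agent.R474.AG.supp_inQ u w (ff b y) n hcov d m hm h

/-- the digits of the product -/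
noncomputable def RZ (b : ℕ) (z : ℝ) (g : ℕ → ℕ) (m : ℕ) : ℕ :=
  ∑ i ∈ range (m + 1), g i * x b z (m - i)

lemma supp_RZ {K K' : ℕ} (u w : Fin K → ℕ) (u' w' : Fin K' → ℕ) (n : ℕ)
    (hcov : ∀ k, k ≤ n → 1 ≤ ff b y k → ∃ i, u i ≤ k ∧ k ≤ w i)
    (hcov' : ∀ k, k ≤ n → 1 ≤ x b z k → ∃ i, u' i ≤ k ∧ k ≤ w' i) (d m : ℕ) (hm : m ≤ n)
    (h : 1 ≤ RZ b z (rr (ff b y) (d + 1)) m) :
    ∃ f : Fin K' × (Fin (d + 1) → Fin K), u' f.1 + ∑ i, u (f.2 i) ≤ m ∧
      m ≤ w' f.1 + ∑ i, w (f.2 i) := by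
  unfold RZ at h
  obtain ⟨i, hi, hne⟩ := exists_ne_zero_of_sum_ne_zero (Nat.one_le_iff_ne_zero.1 h)
  rw [mem_range] at hi
  have h1 : 1 ≤ rr (ff b y) (d + 1) i := by
    by_contra hcon
    exact hne (by rw [show rr (ff b y) (d + 1) i = 0 by omega, zero_mul])
  have h2 : 1 ≤ x b z (m - i) := by
    by_contra hcon
    exact hne (by rw [show x b z (m - i) = 0 by omega, mul_zero])
  obtain ⟨f, hf1, hf2⟩ := supp_ff u w n hcov (d + 1) i (by omega) h1
  obtain ⟨j, hj1, hj2⟩ := hcov' (m - i) (by omega) h2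
  exact ⟨(j, f), by show u' j + ∑ i, u (f i) ≤ m; omega, by show m ≤ w' j + ∑ i, w (f i); omega⟩

lemma UG_zeros (hb : 2 ≤ b) (hz0 : 0 < z) (hz1 : z < 1) (g : ℕ → ℕ) (v : ℝ) (L : ℕ) :
    ∀ h : ℕ, (∀ k, L < k → k ≤ L + h → RZ b z g k = 0) →
      UG b z g v (L + h) = (b : ℝ) ^ h * UG b z g v L := by
  intro h
  induction h with
  | zero => intro _; simp
  | succ h ih =>
    intro hk
    have h1 := hk (L + h + 1) (by omega) (by omega)
    unfold RZ at h1
    rw [← add_assoc, UG_succ hb hz0 hz1, h1, ih (fun k h1 h2 => hk k h1 (by omega)), pow_succ]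
    push_cast
    ring

open Classical in
/-- positions with a large tail lie near the support -/
lemma live_card (hb : 2 ≤ b) (hz0 : 0 < z) (hz1 : z < 1) (g : ℕ → ℕ) (v : ℝ)
    (hT : ∀ N, 0 ≤ TG b g v N) (c2 : ℝ) (hc2 : 0 < c2) (n M : ℕ) (S : ℝ)
    (hS : ∑ m ∈ range n, UG b z g v m ≤ S) :
    (((range n).filter (fun m => c2 ≤ UG b z g v m)).card : ℝ) ≤
      (((range n).filter (fun m => ∃ k, m ≤ k ∧ k ≤ m + M ∧ k ≤ n ∧ 1 ≤ RZ b z g k)).card : ℝ) +
        M + S / ((b : ℝ) ^ M * c2) := by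
  have hb1 : (2 : ℝ) ≤ b := by exact_mod_cast hb
  have hb0 : (0 : ℝ) < b := by linarith
  set F : Finset ℕ := (range n).filter (fun m => m + M < n ∧ c2 ≤ UG b z g v m ∧
    ∀ k, m ≤ k → k ≤ m + M → RZ b z g k = 0) with hF
  have hsub : (range n).filter (fun m => c2 ≤ UG b z g v m) ⊆
      ((range n).filter (fun m => ∃ k, m ≤ k ∧ k ≤ m + M ∧ k ≤ n ∧ 1 ≤ RZ b z g k) ∪
        Ico (n - M) n) ∪ F := by
    intro m hm
    obtain ⟨hm1, hm2⟩ := mem_filter.1 hm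
    have hm3 := mem_range.1 hm1
    rw [mem_union, mem_union]
    by_cases h1 : m + M < n
    · by_cases h2 : ∃ k, m ≤ k ∧ k ≤ m + M ∧ k ≤ n ∧ 1 ≤ RZ b z g k
      · exact Or.inl (Or.inl (mem_filter.2 ⟨hm1, h2⟩))
      · right
        push Not at h2
        refine mem_filter.2 ⟨hm1, h1, hm2, fun k hk1 hk2 => ?_⟩
        have := h2 k hk1 hk2 (by omega)
        omega
    · exact Or.inl (Or.inr (mem_Ico.2 ⟨by omega, hm3⟩))
  have h1 := (card_le_card hsub).trans ((card_union_le _ _).trans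
    (Nat.add_le_add_right (card_union_le _ _) _))
  rw [Nat.card_Ico] at h1
  have h2 : ((range n).filter (fun m => c2 ≤ UG b z g v m)).card ≤
      ((range n).filter (fun m => ∃ k, m ≤ k ∧ k ≤ m + M ∧ k ≤ n ∧ 1 ≤ RZ b z g k)).card + M +
        F.card := by
    omega
  have h3 : (F.card : ℝ) * ((b : ℝ) ^ M * c2) ≤ ∑ N ∈ range n, UG b z g v N := by
    have h4 : ∑ m ∈ F, (b : ℝ) ^ M * c2 ≤ ∑ m ∈ F, UG b z g v (m + M) := by
      refine sum_le_sum fun m hm => ?_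
      obtain ⟨-, h5, h6, h7⟩ := mem_filter.1 hm
      rw [UG_zeros hb hz0 hz1 g v m M (fun k hk1 hk2 => h7 k (by omega) hk2)]
      exact mul_le_mul_of_nonneg_left h6 (by positivity)
    rw [sum_const, nsmul_eq_mul] at h4
    refine h4.trans ?_
    rw [← sum_image (s := F) (g := fun m => m + M) (f := fun N => UG b z g v N)
      (fun a _ c _ h => by simpa using h)]
    refine sum_le_sum_of_subset_of_nonneg ?_ fun N _ _ => UG_nonneg hz0 hT N
    intro N hN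
    obtain ⟨m, hm, rfl⟩ := mem_image.1 hN
    exact mem_range.2 (mem_filter.1 hm).2.1
  have hp : 0 < (b : ℝ) ^ M * c2 := by positivity
  have h5 : (F.card : ℝ) ≤ S / ((b : ℝ) ^ M * c2) := by
    rw [le_div_iff₀ hp]
    exact h3.trans hS
  have h6 : (((range n).filter (fun m => c2 ≤ UG b z g v m)).card : ℝ) ≤
      (((range n).filter (fun m => ∃ k, m ≤ k ∧ k ≤ m + M ∧ k ≤ n ∧ 1 ≤ RZ b z g k)).card : ℝ) +
        M + F.card := by
    exact_mod_cast h2
  linarith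

end

end Pool.Agent.L7h46.CT
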