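import Pool.Agent.L7h46.CT.Tup
import Pool.Agent.L7h46.MB.Main

/-!
# Columns of digits of most multiples of a tuple
-/

set_option autoImplicit false

open Finset

namespace Pool.Agent.L7h46.CT

open Pool.Agent.H820R3.DG (digit)
open Pool.Agent.L7h46.MB (arc_count dig_zero fract_lt greedy)

section
variable {κ : Type}

/-- the places `k < n` after which not all of the columns are zero for a while -/
noncomputable def PlT (b : ℕ) (α : κ → ℝ) (n : ℕ) (η : ℝ) : Finset ℕ :=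
  open Classical in (range n).filter (fun k => ∃ j, η ≤ Int.fract (α j * (b:ℝ) ^ k))

/-- the number of nonzero columns among the first `n` -/
noncomputable def othT (b : ℕ) (α : κ → ℝ) (n : ℕ) : ℕ :=
  open Classical in ((Icc 1 n).filter (fun p => ∃ j, digit b (α j) p ≠ 0)).card

/-- the multiple of a tuple -/
def mulT (m : ℝ) (α : κ → ℝ) : κ → ℝ := fun j => m * α j

/-- the covering inequality implies a lower bound for the number of places -/
theorem placesT {b : ℕ} (hb : 2 ≤ b) (α : κ → ℝ) (s : ℕ) (hs : 1 ≤ s) {c0 : ℝ} {n : ℕ}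
    (h : ∀ (K : ℕ) (u w : ℕ → ℕ), Covers (fun k => ∃ j, digit b (α j) k ≠ 0) n K u w →
      c0 * n ≤ (K : ℝ) ^ (s - 1) * (total K u w : ℝ)) (L : ℕ) (hL : 1 ≤ L) :
    c0 * n * (L:ℝ) ^ (s - 1) ≤ (((PlT b α n (1 / (b:ℝ) ^ L)).card : ℝ) + L) ^ s := by
  classical
  obtain ⟨K, u, hcov, huN, hK⟩ := greedy (fun p => ∃ j, digit b (α j) p ≠ 0) L hL n n le_rfl
  have h1 := h K u (fun i => u i + (L - 1)) ⟨fun i _ => Nat.le_add_right _ _,
    fun k hk hk2 => by
      obtain ⟨a1, a2⟩ := mem_Icc.1 hk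
      exact hcov k a1 a2 hk2⟩
  have hsum : total K u (fun i => u i + (L - 1)) = K * L := by
    unfold total
    rw [sum_congr rfl (fun i _ => (by omega : u i + (L - 1) + 1 - u i = L)), sum_const, card_range,
      smul_eq_mul]
  rw [hsum] at h1
  have hL0 : (0:ℝ) ≤ L := Nat.cast_nonneg _
  have h2 : c0 * n * (L:ℝ) ^ (s - 1) ≤ ((K * L : ℕ) : ℝ) ^ s := by
    calc c0 * n * (L:ℝ) ^ (s - 1) ≤ ((K:ℝ) ^ (s - 1) * ((K * L : ℕ) : ℝ)) * (L:ℝ) ^ (s - 1) :=
          mul_le_mul_of_nonneg_right h1 (by positivity)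
      _ = ((K * L : ℕ) : ℝ) ^ s := by
        obtain ⟨d, rfl⟩ := Nat.exists_eq_add_of_le hs
        rw [Nat.add_sub_cancel_left, pow_add, pow_one]
        push_cast
        ring
  refine h2.trans ?_
  apply pow_le_pow_left₀ (Nat.cast_nonneg _)
  have h3 : K * L ≤ (PlT b α n (1 / (b:ℝ) ^ L)).card + L := by
    rcases hK with h0 | ⟨hK1, hu1, hu2, hcard⟩
    · rw [h0, Nat.zero_mul]; exact Nat.zero_le _
    · have h4 : K * L = (K - 1) * L + L := by
        obtain ⟨K', rfl⟩ := Nat.exists_eq_add_of_le hK1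
        rw [Nat.add_sub_cancel_left]; ring
      rw [h4]
      apply Nat.add_le_add_right
      refine hcard.trans (card_le_card ?_)
      intro k hk
      obtain ⟨hk1, p, ⟨j, hp1⟩, hp2, hp3, hp4⟩ := mem_filter.1 hk
      rw [PlT, mem_filter]
      refine ⟨mem_range.2 (by have := mem_range.1 hk1; omega), j, ?_⟩
      by_contra hcon
      push Not at hcon
      apply hp1
      have := dig_zero hb (α j) k L hcon (p - k) (by omega) (by omega)
      rwa [Nat.add_sub_cancel' hp3.le] at this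
  exact_mod_cast h3

/-- the windows of length `l` -/
lemma othT_lower {b : ℕ} (hb : 2 ≤ b) (y : κ → ℝ) (n l : ℕ) (G : Finset ℕ) (hG : G ⊆ range n)
    (h : ∀ k ∈ G, ∃ j, 1 / (b:ℝ) ^ l ≤ Int.fract (y j * (b:ℝ) ^ k)) :
    G.card ≤ l * (othT b y n + l) := by
  classical
  have h1 : G ⊆ (range l).biUnion (fun j => ((Icc 1 (n + l)).filter
      (fun p => ∃ i, digit b (y i) p ≠ 0)).image (fun p => p - (j + 1))) := by
    intro k hk
    have hkn := mem_range.1 (hG hk)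
    obtain ⟨i, h2⟩ := h k hk
    by_contra hcon
    have h3 := fract_lt hb (y i) k l (by
      intro j hj1 hj2
      by_contra h0
      apply hcon
      rw [mem_biUnion]
      refine ⟨j - 1, mem_range.2 (by omega), ?_⟩
      rw [mem_image]
      refine ⟨k + j, mem_filter.2 ⟨mem_Icc.2 ⟨by omega, by omega⟩, i, h0⟩, by omega⟩)
    linarith
  have h2 : ((Icc 1 (n + l)).filter (fun p => ∃ i, digit b (y i) p ≠ 0)).card ≤ othT b y n + l := by
    have h3 : (Icc 1 (n + l)).filter (fun p => ∃ i, digit b (y i) p ≠ 0) ⊆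
        (Icc 1 n).filter (fun p => ∃ i, digit b (y i) p ≠ 0) ∪ Ioc n (n + l) := by
      intro p hp
      obtain ⟨hp1, hp2⟩ := mem_filter.1 hp
      rw [mem_Icc] at hp1
      rw [mem_union]
      rcases Nat.lt_or_ge n p with h | h
      · exact Or.inr (mem_Ioc.2 ⟨h, hp1.2⟩)
      · exact Or.inl (mem_filter.2 ⟨mem_Icc.2 ⟨hp1.1, h⟩, hp2⟩)
    refine (card_le_card h3).trans ((card_union_le _ _).trans ?_)
    rw [Nat.card_Ioc]
    have : othT b y n = ((Icc 1 n).filter (fun p => ∃ i, digit b (y i) p ≠ 0)).card := by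
      unfold othT
      congr!
    omega
  refine (card_le_card h1).trans (card_biUnion_le.trans ?_)
  refine (sum_le_sum fun j _ => card_image_le.trans h2).trans ?_
  rw [sum_const, card_range, smul_eq_mul]

/-- the hypothesis for all multiples -/
def HP (b : ℕ) (α : κ → ℝ) (s : ℕ) : Prop :=
  ∀ F : ℕ, 1 ≤ F → ∃ c0 : ℝ, 0 < c0 ∧ ∃ n0 : ℕ, ∀ n : ℕ, n0 ≤ n → ∀ L : ℕ, 1 ≤ L →
    c0 * n * (L:ℝ) ^ (s - 1) ≤ (((PlT b (mulT F α) n (1 / (b:ℝ) ^ L)).card : ℝ) + L) ^ s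

/-- one multiple: all `n` -/
lemma one_multT {b : ℕ} (hb : 2 ≤ b) {α : κ → ℝ} {s : ℕ} (hs : 1 ≤ s) (hP : HP b α s) (m : ℕ)
    (hm : 1 ≤ m) :
    ∃ c : ℝ, 0 < c ∧ ∃ n0 : ℕ, ∀ n : ℕ, n0 ≤ n →
      c * (n:ℝ) ^ (1 / (s:ℝ)) ≤ othT b (mulT m α) n := by
  classical
  obtain ⟨c0, hc0, n0, h⟩ := hP m hm
  have hD0 : (0:ℝ) < s := by exact_mod_cast hs
  have hcD : 0 < c0 ^ (1 / (s:ℝ)) := Real.rpow_pos_of_pos hc0 _
  -- `n` large
  obtain ⟨n1, hn1⟩ := exists_nat_ge ((4 / c0 ^ (1 / (s:ℝ))) ^ (s:ℝ))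
  refine ⟨c0 ^ (1 / (s:ℝ)) / 2, by positivity, max n0 n1, fun n hn => ?_⟩
  have h1 := h n ((le_max_left _ _).trans hn) 1 le_rfl
  rw [Nat.cast_one, one_pow, mul_one] at h1
  have h2 := othT_lower hb (mulT m α) n 1 (PlT b (mulT m α) n (1 / (b:ℝ) ^ 1)) (by
    unfold PlT; exact filter_subset _ _) (by
    intro k hk
    unfold PlT at hk
    exact (mem_filter.1 hk).2)
  rw [Nat.one_mul] at h2
  have h2r : (((PlT b (mulT m α) n (1 / (b:ℝ) ^ 1)).card : ℕ) : ℝ) ≤ othT b (mulT m α) n + 1 := by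
    exact_mod_cast h2
  have h3 : c0 * n ≤ ((othT b (mulT m α) n : ℝ) + 2) ^ s := by
    refine h1.trans (pow_le_pow_left₀ (by positivity) ?_ _)
    linarith
  have h4 : (c0 * n) ^ (1 / (s:ℝ)) ≤ (othT b (mulT m α) n : ℝ) + 2 := by
    have h5 := Real.rpow_le_rpow (by positivity) h3 (by positivity : (0:ℝ) ≤ 1 / (s:ℝ))
    rwa [← Real.rpow_natCast, ← Real.rpow_mul (by positivity), mul_one_div_cancel hD0.ne',
      Real.rpow_one] at h5
  rw [Real.mul_rpow hc0.le (Nat.cast_nonneg _)] at h4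
  have h5 : 4 ≤ c0 ^ (1 / (s:ℝ)) * (n:ℝ) ^ (1 / (s:ℝ)) := by
    have h6 : (4 / c0 ^ (1 / (s:ℝ))) ^ (s:ℝ) ≤ n :=
      hn1.trans (by exact_mod_cast (le_max_right _ _).trans hn)
    have h7 := Real.rpow_le_rpow (by positivity) h6 (by positivity : (0:ℝ) ≤ 1 / (s:ℝ))
    rw [← Real.rpow_mul (by positivity), mul_one_div_cancel hD0.ne', Real.rpow_one,
      div_le_iff₀ hcD] at h7
    linarith
  linarith

/-- bounded multiples -/
lemma small_multT {b : ℕ} (hb : 2 ≤ b) {α : κ → ℝ} {s : ℕ} (hs : 1 ≤ s) (hP : HP b α s) (M0 : ℕ) :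
    ∃ c : ℝ, 0 < c ∧ ∃ n0 : ℕ, ∀ n : ℕ, n0 ≤ n → ∀ m : ℕ, 1 ≤ m → m ≤ M0 →
      c * (n:ℝ) ^ (1 / (s:ℝ)) ≤ othT b (mulT m α) n := by
  induction M0 with
  | zero => exact ⟨1, one_pos, 0, fun n _ m h1 h2 => by omega⟩
  | succ M0 ih =>
    obtain ⟨c1, hc1, n1, h1⟩ := ih
    obtain ⟨c2, hc2, n2, h2⟩ := one_multT hb hs hP (M0 + 1) (by omega)
    refine ⟨min c1 c2, lt_min hc1 hc2, max n1 n2, fun n hn m hm1 hm2 => ?_⟩
    have hn0 : (0:ℝ) ≤ (n:ℝ) ^ (1 / (s:ℝ)) := by positivity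
    rcases Nat.lt_or_ge m (M0 + 1) with h | h
    · have := h1 n ((le_max_left _ _).trans hn) m hm1 (by omega)
      refine le_trans ?_ this
      exact mul_le_mul_of_nonneg_right (min_le_left _ _) hn0
    · have hm : m = M0 + 1 := by omega
      rw [hm]
      have := h2 n ((le_max_right _ _).trans hn)
      refine le_trans ?_ this
      exact mul_le_mul_of_nonneg_right (min_le_right _ _) hn0

/-- double counting -/
lemma bad_countT {b : ℕ} (hb : 2 ≤ b) {α : κ → ℝ} (hirr : ∀ j, Irrational (α j)) (Q : ℕ)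
    (hQ : 1 ≤ Q) (M : ℕ)
    (hM : 16 * Q ^ 2 ≤ M) (l : ℕ) (hl : 16 * (Q:ℝ) ^ 2 ≤ (b:ℝ) ^ l) (n : ℕ)
    (hG : 0 < (PlT b (mulT Q.factorial α) n ((Q.factorial : ℝ) / (2 * M))).card) :
    (((Icc 1 M).filter (fun m : ℕ => ¬
      ((PlT b (mulT Q.factorial α) n ((Q.factorial : ℝ) / (2 * M))).card : ℝ) ≤
        2 * l * (othT b (mulT m α) n + l))).card : ℝ) ≤ 4 * M / Q := by
  classical
  set G := PlT b (mulT Q.factorial α) n ((Q.factorial : ℝ) / (2 * M)) with hGdef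
  have hQr : (1:ℝ) ≤ Q := by exact_mod_cast hQ
  have hGr : (0:ℝ) < G.card := by exact_mod_cast hG
  have hGsub : G ⊆ range n := by rw [hGdef]; unfold PlT; exact filter_subset _ _
  have hbl : (0:ℝ) < (b:ℝ) ^ l := by
    have : (0:ℝ) < b := by
      have : 0 < b := by omega
      exact_mod_cast this
    positivity
  have hτ : 1 / (b:ℝ) ^ l ≤ 1 / (16 * (Q:ℝ) ^ 2) := one_div_le_one_div_of_le (by positivity) hl
  -- the coordinate
  have hex : ∀ k, ∃ j : κ, k ∈ G → (Q.factorial : ℝ) / (2 * M) ≤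
      Int.fract (Q.factorial * α j * (b:ℝ) ^ k) := by
    obtain ⟨k1, hk1⟩ := card_pos.1 hG
    intro k
    by_cases hk : k ∈ G
    · rw [hGdef] at hk
      unfold PlT at hk
      obtain ⟨j, hj⟩ := (mem_filter.1 hk).2
      exact ⟨j, fun _ => hj⟩
    · rw [hGdef] at hk1
      unfold PlT at hk1
      obtain ⟨j, hj⟩ := (mem_filter.1 hk1).2
      exact ⟨j, fun h => absurd h hk⟩
  choose J hJ using hex
  -- each place
  have hplace : ∀ k ∈ G, (((Icc 1 M).filter (fun m : ℕ =>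
      Int.fract (m * α (J k) * (b:ℝ) ^ k) < 1 / (b:ℝ) ^ l)).card : ℝ) ≤ 2 * M / Q := by
    intro k hk
    have hirr' : Irrational (α (J k) * (b:ℝ) ^ k) := by
      have h1 := (hirr (J k)).mul_natCast (m := b ^ k) (by
        have : 0 < b := by omega
        positivity)
      have h2 : ((b ^ k : ℕ) : ℝ) = (b:ℝ) ^ k := by push_cast; rfl
      rwa [h2] at h1
    have h1 := arc_count (α (J k) * (b:ℝ) ^ k) hirr' Q hQ M hM (1 / (b:ℝ) ^ l) (by positivity) hτ (by
      have h2 := hJ k hk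
      rwa [mul_assoc] at h2)
    refine le_trans (le_of_eq ?_) h1
    congr 2
    refine filter_congr fun m _ => ?_
    rw [mul_assoc]
  set E := (Icc 1 M).filter (fun m : ℕ => ¬ (G.card : ℝ) ≤ 2 * l * (othT b (mulT m α) n + l)) with hE
  -- for each bad `m` at least half of the places are bad
  have hm : ∀ m ∈ E, (G.card : ℝ) / 2 ≤
      ((G.filter (fun k => Int.fract (m * α (J k) * (b:ℝ) ^ k) < 1 / (b:ℝ) ^ l)).card : ℝ) := by
    intro m hm
    have h1 := (mem_filter.1 hm).2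
    push Not at h1
    have h2 := othT_lower hb (mulT m α) n l
      (G.filter (fun k => ¬ Int.fract (m * α (J k) * (b:ℝ) ^ k) < 1 / (b:ℝ) ^ l))
      ((filter_subset _ _).trans hGsub) (by
        intro k hk
        have := (mem_filter.1 hk).2
        push Not at this
        exact ⟨J k, this⟩)
    have h3 := card_filter_add_card_filter_not (s := G)
      (p := fun k => Int.fract (m * α (J k) * (b:ℝ) ^ k) < 1 / (b:ℝ) ^ l)
    have h2r : (((G.filter (fun k => ¬ Int.fract (m * α (J k) * (b:ℝ) ^ k) <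
        1 / (b:ℝ) ^ l)).card : ℕ) : ℝ) ≤ l * (othT b (mulT m α) n + l) := by exact_mod_cast h2
    have h3r : (((G.filter (fun k => Int.fract (m * α (J k) * (b:ℝ) ^ k) <
        1 / (b:ℝ) ^ l)).card : ℕ) : ℝ) +
        (((G.filter (fun k => ¬ Int.fract (m * α (J k) * (b:ℝ) ^ k) <
        1 / (b:ℝ) ^ l)).card : ℕ) : ℝ) = G.card := by
      exact_mod_cast h3
    linarith
  -- double counting
  have h1 : ∑ m ∈ E, (G.card : ℝ) / 2 ≤ ∑ m ∈ Icc 1 M,
      ((G.filter (fun k => Int.fract (m * α (J k) * (b:ℝ) ^ k) < 1 / (b:ℝ) ^ l)).card : ℝ) :=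
    (sum_le_sum hm).trans (sum_le_sum_of_subset_of_nonneg (filter_subset _ _)
      (fun _ _ _ => Nat.cast_nonneg _))
  have h2 : ∑ m ∈ Icc 1 M,
      ((G.filter (fun k => Int.fract (m * α (J k) * (b:ℝ) ^ k) < 1 / (b:ℝ) ^ l)).card : ℝ) =
      ∑ k ∈ G, (((Icc 1 M).filter (fun m : ℕ =>
      Int.fract (m * α (J k) * (b:ℝ) ^ k) < 1 / (b:ℝ) ^ l)).card : ℝ) := by
    simp_rw [card_filter]
    push_cast
    rw [sum_comm]
  rw [h2, sum_const, nsmul_eq_mul] at h1
  have h3 := h1.trans (sum_le_sum hplace)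
  rw [sum_const, nsmul_eq_mul] at h3
  have h4 : (E.card : ℝ) * ((G.card : ℝ) / 2) ≤ (4 * M / Q) * ((G.card : ℝ) / 2) := by
    refine h3.trans (le_of_eq ?_)
    ring
  exact le_of_mul_le_mul_right h4 (by linarith)

open Classical in
/-- **Main theorem** for the column zero -/
theorem main_zeroT {b : ℕ} (hb : 2 ≤ b) {x : κ → ℝ} (hirr : ∀ j, Irrational (x j))
    {D : ℕ} (hD1 : 1 ≤ D) (hP : HP b x D) (δ : ℝ) (hδ : 0 < δ) :
    ∃ c : ℝ, 0 < c ∧ ∃ n0 : ℕ, ∀ n : ℕ, n0 ≤ n → ∀ M : ℕ, 1 ≤ M → M ≤ b ^ n →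
      (((Icc 1 M).filter (fun m : ℕ => ¬ c * ((n:ℝ) ^ (1 / (D:ℝ)) *
        (1 + Real.log M) ^ (1 - 1 / (D:ℝ))) ≤ othT b (mulT m x) n)).card : ℝ) ≤ δ * M := by
  have hD0 : (0:ℝ) < D := by exact_mod_cast hD1
  have hD1r : (1:ℝ) ≤ D := by exact_mod_cast hD1
  have hb0 : (0:ℝ) < b := by
    have : 0 < b := by omega
    exact_mod_cast this
  have hb2 : (2:ℝ) ≤ b := by exact_mod_cast hb
  have hlb : 0 < Real.log b := Real.log_pos (by linarith)
  have hexp : 0 ≤ 1 - 1 / (D:ℝ) := by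
    rw [sub_nonneg, div_le_one hD0]; exact hD1r
  -- parameters
  obtain ⟨Q, hQ⟩ := exists_nat_ge (max 1 (4 / δ))
  have hQ1r : (1:ℝ) ≤ Q := (le_max_left _ _).trans hQ
  have hQ1 : 1 ≤ Q := by exact_mod_cast hQ1r
  have hQδ : 4 / δ ≤ Q := (le_max_right _ _).trans hQ
  set F : ℕ := Q.factorial with hF
  have hF1 : 1 ≤ F := Nat.factorial_pos Q
  have hF1r : (1:ℝ) ≤ F := by exact_mod_cast hF1
  set l : ℕ := 16 * Q ^ 2 with hl
  have hl1 : 1 ≤ l := by rw [hl]; nlinarith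
  have hlr : (1:ℝ) ≤ l := by exact_mod_cast hl1
  have hlb' : 16 * (Q:ℝ) ^ 2 ≤ (b:ℝ) ^ l := by
    have h1 : l ≤ b ^ l := (Nat.lt_pow_self (by omega : 1 < b)).le
    have h2 : (l:ℝ) ≤ (b:ℝ) ^ l := by exact_mod_cast h1
    refine le_trans (le_of_eq ?_) h2
    rw [hl]; push_cast; ring
  obtain ⟨c0, hc0, n1, hpl⟩ := hP F hF1
  -- the bound for large `M`
  obtain ⟨M0, hM0⟩ := exists_nat_ge (max (16 * (Q:ℝ) ^ 2)
    (max ((F:ℝ) * b) (Real.exp (4 * (Real.log F + Real.log b + 1)))))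
  obtain ⟨cs, hcs, n2, hsm⟩ := small_multT hb hD1 hP M0
  set κ : ℝ := min (1 / (2 * Real.log b)) (c0 / (2 ^ (D + 1) * (1 + Real.log b))) with hκ
  have hκ0 : 0 < κ := lt_min (by positivity) (by positivity)
  set c1 : ℝ := c0 ^ (1 / (D:ℝ)) * κ ^ (1 - 1 / (D:ℝ)) / 2 with hc1
  have hc10 : 0 < c1 := by
    rw [hc1]
    have h1 := Real.rpow_pos_of_pos hc0 (1 / (D:ℝ))
    have h2 := Real.rpow_pos_of_pos hκ0 (1 - 1 / (D:ℝ))
    positivity
  obtain ⟨n3, hn3⟩ := exists_nat_ge (max 1 (max (2 ^ (D + 1) / c0) ((4 * l ^ 2 / c1) ^ (D:ℝ))))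
  have hlM0 : 0 < 1 + Real.log (M0 + 1) := by
    have : 0 ≤ Real.log ((M0:ℝ) + 1) := Real.log_nonneg (by
      have : (0:ℝ) ≤ M0 := Nat.cast_nonneg _
      linarith)
    linarith
  refine ⟨min (c1 / (4 * l)) (cs / (1 + Real.log (M0 + 1)) ^ (1 - 1 / (D:ℝ))),
    lt_min (by positivity) (by positivity), max n1 (max n2 n3), fun n hn M hM1 hMn => ?_⟩
  have hnn1 : n1 ≤ n := (le_max_left _ _).trans hn
  have hnn2 : n2 ≤ n := ((le_max_left _ _).trans (le_max_right _ _)).trans hn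
  have hnn3 : (n3:ℝ) ≤ n := by exact_mod_cast ((le_max_right _ _).trans (le_max_right _ _)).trans hn
  have hn1r : (1:ℝ) ≤ n := ((le_max_left _ _).trans hn3).trans hnn3
  have hMr : (1:ℝ) ≤ M := by exact_mod_cast hM1
  have hlogM : 0 ≤ Real.log M := Real.log_nonneg hMr
  set V : ℝ := (n:ℝ) ^ (1 / (D:ℝ)) * (1 + Real.log M) ^ (1 - 1 / (D:ℝ)) with hV
  have hV0 : 0 ≤ V := by positivity
  rcases Nat.lt_or_ge M M0 with hlt | hge
  · -- small `M`
    have h0 : ((Icc 1 M).filter (fun m : ℕ => ¬ min (c1 / (4 * l))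
        (cs / (1 + Real.log (M0 + 1)) ^ (1 - 1 / (D:ℝ))) * V ≤ othT b (mulT m x) n)) = ∅ := by
      rw [filter_eq_empty_iff]
      intro m hm
      rw [not_not]
      rw [mem_Icc] at hm
      have h1 := hsm n hnn2 m hm.1 (hm.2.trans hlt.le)
      refine le_trans ?_ h1
      have h2 : (1 + Real.log M) ^ (1 - 1 / (D:ℝ)) ≤ (1 + Real.log (M0 + 1)) ^ (1 - 1 / (D:ℝ)) := by
        apply Real.rpow_le_rpow (by linarith) _ hexp
        have : (M:ℝ) ≤ M0 + 1 := by
          have : (M:ℝ) ≤ M0 := by exact_mod_cast hlt.le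
          linarith
        have := Real.log_le_log (by linarith) this
        linarith
      have h3 : 0 < (1 + Real.log (M0 + 1)) ^ (1 - 1 / (D:ℝ)) := Real.rpow_pos_of_pos hlM0 _
      calc min (c1 / (4 * l)) (cs / (1 + Real.log (M0 + 1)) ^ (1 - 1 / (D:ℝ))) * V
          ≤ cs / (1 + Real.log (M0 + 1)) ^ (1 - 1 / (D:ℝ)) * V :=
            mul_le_mul_of_nonneg_right (min_le_right _ _) hV0
        _ ≤ cs / (1 + Real.log (M0 + 1)) ^ (1 - 1 / (D:ℝ)) *
            ((n:ℝ) ^ (1 / (D:ℝ)) * (1 + Real.log (M0 + 1)) ^ (1 - 1 / (D:ℝ))) := by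
            rw [hV]; gcongr
        _ = cs * (n:ℝ) ^ (1 / (D:ℝ)) := by field_simp
    rw [h0, card_empty, Nat.cast_zero]
    positivity
  · -- large `M`
    have hgeR : (M0:ℝ) ≤ M := by exact_mod_cast hge
    have hMQ : 16 * (Q:ℝ) ^ 2 ≤ M := ((le_max_left _ _).trans hM0).trans hgeR
    have hMQn : 16 * Q ^ 2 ≤ M := by exact_mod_cast hMQ
    have hMF : (F:ℝ) * b ≤ M :=
      (((le_max_left _ _).trans (le_max_right _ _)).trans hM0).trans hgeR
    have hMe : Real.exp (4 * (Real.log F + Real.log b + 1)) ≤ M :=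
      (((le_max_right _ _).trans (le_max_right _ _)).trans hM0).trans hgeR
    have hlF : 0 ≤ Real.log F := Real.log_nonneg hF1r
    have hlogM4 : 4 * (Real.log F + Real.log b + 1) ≤ Real.log M := by
      rw [Real.le_log_iff_exp_le (by linarith)]; exact hMe
    -- the length
    set L : ℕ := Nat.log b (M / F) with hL
    have hMF0 : M / F ≠ 0 := by
      have h1 : F * b ≤ M := by exact_mod_cast hMF
      have h2 : 0 < M / F := Nat.div_pos (by nlinarith) (by omega)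
      omega
    have hL1 : 1 ≤ L := by
      rw [hL]
      apply Nat.log_pos (by omega)
      rw [Nat.le_div_iff_mul_le (by omega)]
      have h1 : F * b ≤ M := by exact_mod_cast hMF
      linarith [Nat.mul_comm F b]
    have hbL : (b:ℝ) ^ L ≤ M / F := by
      have h1 : b ^ L ≤ M / F := Nat.pow_log_le_self b hMF0
      have h2 : (((M / F : ℕ)) : ℝ) ≤ (M:ℝ) / F := Nat.cast_div_le
      refine le_trans ?_ h2
      exact_mod_cast h1
    have hLlow : κ * (1 + Real.log M) ≤ L := by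
      have h1 : M / F < b ^ (L + 1) := Nat.lt_pow_succ_log_self (by omega) _
      have h2 : (M:ℝ) / F < (b:ℝ) ^ (L + 1) := by
        have h3 : M / F + 1 ≤ b ^ (L + 1) := h1
        have h4 : (((M / F : ℕ)) : ℝ) + 1 ≤ (b:ℝ) ^ (L + 1) := by exact_mod_cast h3
        have h5 : (M:ℝ) / F < (((M / F : ℕ)) : ℝ) + 1 := by
          rw [div_lt_iff₀ (by linarith)]
          have h6 := Nat.lt_mul_div_succ M (by omega : 0 < F)
          have h7 : M < F * (M / F + 1) := h6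
          have h8 : (M:ℝ) < F * ((((M / F : ℕ)) : ℝ) + 1) := by exact_mod_cast h7
          linarith
        linarith
      have h3 := Real.log_lt_log (by positivity) h2
      rw [Real.log_div (by linarith) (by linarith), Real.log_pow] at h3
      push_cast at h3
      have h4 : κ ≤ 1 / (2 * Real.log b) := min_le_left _ _
      have h5 : κ * (1 + Real.log M) ≤ 1 / (2 * Real.log b) * (1 + Real.log M) := by gcongr
      refine h5.trans ?_
      rw [one_div, inv_mul_le_iff₀ (by positivity)]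
      linarith
    -- the length used
    set L' : ℕ := min L ⌊c0 * n / 2 ^ D⌋₊ with hL'
    have hfl : κ * (1 + Real.log M) ≤ (⌊c0 * n / 2 ^ D⌋₊ : ℝ) := by
      have h1 : c0 * n / 2 ^ D < ⌊c0 * n / 2 ^ D⌋₊ + 1 := Nat.lt_floor_add_one _
      have h2 : 2 ^ (D + 1) / c0 ≤ n :=
        (((le_max_left _ _).trans (le_max_right _ _)).trans hn3).trans hnn3
      rw [div_le_iff₀ hc0] at h2
      have h3 : 1 ≤ c0 * n / 2 ^ (D + 1) := by
        rw [le_div_iff₀ (by positivity)]; linarith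
      have h4 : c0 * n / 2 ^ D = 2 * (c0 * n / 2 ^ (D + 1)) := by
        rw [pow_succ]; field_simp
      have h5 : Real.log M ≤ n * Real.log b := by
        have h6 : (M:ℝ) ≤ (b:ℝ) ^ n := by exact_mod_cast hMn
        have h7 := Real.log_le_log (by linarith) h6
        rwa [Real.log_pow] at h7
      have h6 : 1 + Real.log M ≤ n * (1 + Real.log b) := by nlinarith
      have h7 : κ ≤ c0 / (2 ^ (D + 1) * (1 + Real.log b)) := min_le_right _ _
      have h8 : κ * (1 + Real.log M) ≤ c0 / (2 ^ (D + 1) * (1 + Real.log b)) * (n * (1 + Real.log b)) := by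
        gcongr
      have h9 : c0 / (2 ^ (D + 1) * (1 + Real.log b)) * (n * (1 + Real.log b)) =
          c0 * n / 2 ^ (D + 1) := by
        have : 1 + Real.log b ≠ 0 := by positivity
        field_simp
      rw [h9] at h8
      linarith
    have hfl1 : 1 ≤ ⌊c0 * n / 2 ^ D⌋₊ := by
      have h1 : 0 < κ * (1 + Real.log M) := by positivity
      have h2 : (0:ℝ) < ⌊c0 * n / 2 ^ D⌋₊ := by linarith
      have h3 : 0 < ⌊c0 * n / 2 ^ D⌋₊ := by exact_mod_cast h2
      omega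
    have hL'1 : 1 ≤ L' := le_min hL1 hfl1
    have hL'low : κ * (1 + Real.log M) ≤ L' := by
      rw [hL', Nat.cast_min]
      exact le_min hLlow hfl
    have hL'L : L' ≤ L := min_le_left _ _
    have hL'n : (L':ℝ) ≤ c0 * n / 2 ^ D := by
      have h1 : L' ≤ ⌊c0 * n / 2 ^ D⌋₊ := min_le_right _ _
      have h2 : (⌊c0 * n / 2 ^ D⌋₊ : ℝ) ≤ c0 * n / 2 ^ D := Nat.floor_le (by positivity)
      refine le_trans ?_ h2
      exact_mod_cast h1
    -- the good places
    set G := PlT b (mulT (Q.factorial : ℝ) x) n ((Q.factorial : ℝ) / (2 * M)) with hG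
    set A := PlT b (mulT (F:ℝ) x) n (1 / (b:ℝ) ^ L') with hA
    have hAG : A.card ≤ G.card := by
      apply card_le_card
      intro k hk
      rw [hA] at hk
      unfold PlT at hk
      rw [hG]
      unfold PlT
      rw [mem_filter] at hk ⊢
      obtain ⟨hk1, j, hk2⟩ := hk
      refine ⟨hk1, j, le_trans ?_ hk2⟩
      have h1 : (b:ℝ) ^ L' ≤ M / F :=
        (pow_le_pow_right₀ (by linarith) hL'L).trans hbL
      rw [div_le_div_iff₀ (by positivity) (by positivity), one_mul]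
      rw [le_div_iff₀ (by linarith)] at h1
      calc (Q.factorial : ℝ) * (b:ℝ) ^ L' = (b:ℝ) ^ L' * F := by rw [hF]; ring
        _ ≤ M := h1
        _ ≤ 2 * M := by linarith
    have hAlow : c0 * n * (L':ℝ) ^ (D - 1) ≤ ((A.card : ℝ) + L') ^ D := hpl n hnn1 L' hL'1
    set Y : ℝ := c0 * n * (L':ℝ) ^ (D - 1) with hY
    have hY0 : 0 ≤ Y := by positivity
    have hL'0 : (0:ℝ) < L' := by exact_mod_cast hL'1
    have hYD : Y ^ (1 / (D:ℝ)) ≤ (A.card : ℝ) + L' := by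
      have h5 := Real.rpow_le_rpow hY0 hAlow (by positivity : (0:ℝ) ≤ 1 / (D:ℝ))
      rwa [← Real.rpow_natCast, ← Real.rpow_mul (by positivity), mul_one_div_cancel hD0.ne',
        Real.rpow_one] at h5
    have hY2 : 2 * (L':ℝ) ≤ Y ^ (1 / (D:ℝ)) := by
      have h1 : (2 * (L':ℝ)) ^ D ≤ Y := by
        rw [hY, mul_pow]
        rw [le_div_iff₀ (by positivity)] at hL'n
        have h2 : (L':ℝ) ^ D = L' * (L':ℝ) ^ (D - 1) := by
          rw [← pow_succ']
          congr 1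
          omega
        rw [h2]
        calc 2 ^ D * (L' * (L':ℝ) ^ (D - 1)) = (L' * 2 ^ D) * (L':ℝ) ^ (D - 1) := by ring
          _ ≤ _ := mul_le_mul_of_nonneg_right hL'n (by positivity)
      have h5 := Real.rpow_le_rpow (by positivity) h1 (by positivity : (0:ℝ) ≤ 1 / (D:ℝ))
      rwa [← Real.rpow_natCast, ← Real.rpow_mul (by positivity), mul_one_div_cancel hD0.ne',
        Real.rpow_one] at h5
    have hYV : 2 * (c1 * V) ≤ Y ^ (1 / (D:ℝ)) := by
      have h1 : Y ^ (1 / (D:ℝ)) = c0 ^ (1 / (D:ℝ)) * (n:ℝ) ^ (1 / (D:ℝ)) *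
          (L':ℝ) ^ (1 - 1 / (D:ℝ)) := by
        rw [hY, Real.mul_rpow (by positivity) (by positivity), Real.mul_rpow hc0.le (Nat.cast_nonneg _)]
        congr 1
        rw [← Real.rpow_natCast, ← Real.rpow_mul (by positivity)]
        congr 1
        rw [Nat.cast_sub hD1]
        field_simp
        push_cast
        ring
      have h2 : (κ * (1 + Real.log M)) ^ (1 - 1 / (D:ℝ)) ≤ (L':ℝ) ^ (1 - 1 / (D:ℝ)) :=
        Real.rpow_le_rpow (by positivity) hL'low hexp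
      rw [Real.mul_rpow hκ0.le (by linarith)] at h2
      rw [h1, hc1, hV]
      calc 2 * (c0 ^ (1 / (D:ℝ)) * κ ^ (1 - 1 / (D:ℝ)) / 2 *
            ((n:ℝ) ^ (1 / (D:ℝ)) * (1 + Real.log M) ^ (1 - 1 / (D:ℝ))))
          = c0 ^ (1 / (D:ℝ)) * (n:ℝ) ^ (1 / (D:ℝ)) *
            (κ ^ (1 - 1 / (D:ℝ)) * (1 + Real.log M) ^ (1 - 1 / (D:ℝ))) := by ring
        _ ≤ _ := by gcongr
    have hGlow : c1 * V ≤ G.card := by
      have h1 : (A.card : ℝ) ≤ G.card := by exact_mod_cast hAG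
      linarith
    -- `V` is large
    have hVn : (n:ℝ) ^ (1 / (D:ℝ)) ≤ V := by
      have h1 : 1 ≤ (1 + Real.log M) ^ (1 - 1 / (D:ℝ)) :=
        Real.one_le_rpow (by linarith) hexp
      rw [hV]
      have h2 : (0:ℝ) ≤ (n:ℝ) ^ (1 / (D:ℝ)) := by positivity
      nlinarith
    have hVl : 4 * (l:ℝ) ^ 2 / c1 ≤ V := by
      refine le_trans ?_ hVn
      have h6 : (4 * (l:ℝ) ^ 2 / c1) ^ (D:ℝ) ≤ n :=
        (((le_max_right _ _).trans (le_max_right _ _)).trans hn3).trans hnn3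
      have h7 := Real.rpow_le_rpow (by positivity) h6 (by positivity : (0:ℝ) ≤ 1 / (D:ℝ))
      rwa [← Real.rpow_mul (by positivity), mul_one_div_cancel hD0.ne', Real.rpow_one] at h7
    rw [div_le_iff₀ hc10] at hVl
    have hGpos : 0 < G.card := by
      have h1 : (0:ℝ) < G.card := by
        have : (0:ℝ) < 4 * (l:ℝ) ^ 2 := by positivity
        linarith
      exact_mod_cast h1
    have h1 := bad_countT hb hirr Q hQ1 M hMQn l hlb' n hGpos
    have h2 : ((Icc 1 M).filter (fun m : ℕ => ¬ min (c1 / (4 * l))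
        (cs / (1 + Real.log (M0 + 1)) ^ (1 - 1 / (D:ℝ))) * V ≤ othT b (mulT m x) n)).card ≤
        ((Icc 1 M).filter (fun m : ℕ => ¬ (G.card : ℝ) ≤ 2 * l * (othT b (mulT m x) n + l))).card := by
      apply card_le_card
      intro m hm
      rw [mem_filter] at hm ⊢
      refine ⟨hm.1, fun hcon => hm.2 ?_⟩
      have h3 : min (c1 / (4 * l)) (cs / (1 + Real.log (M0 + 1)) ^ (1 - 1 / (D:ℝ))) * V ≤
          c1 / (4 * l) * V := mul_le_mul_of_nonneg_right (min_le_left _ _) hV0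
      refine h3.trans ?_
      rw [div_mul_eq_mul_div, div_le_iff₀ (by positivity)]
      nlinarith
    have h3 : (((Icc 1 M).filter (fun m : ℕ => ¬ min (c1 / (4 * l))
        (cs / (1 + Real.log (M0 + 1)) ^ (1 - 1 / (D:ℝ))) * V ≤ othT b (mulT m x) n)).card : ℝ) ≤
        4 * M / Q := le_trans (Nat.cast_le.2 h2) h1
    refine h3.trans ?_
    rw [div_le_iff₀ (by linarith)]
    rw [div_le_iff₀ hδ] at hQδ
    nlinarith

end

end Pool.Agent.L7h46.CT
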