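import Pool.Agent.L7h46.CT.Mult

/-!
# Columns of digits of most multiples of an algebraic tuple, all extreme columns
-/

set_option autoImplicit false

open Finset IntermediateField Module

namespace Pool.Agent.L7h46.CT

open Pool.Agent.H820R3.DG (digit)

section
variable {κ : Type} [Fintype κ]

/-- the places hypothesis for the multiples of an algebraic tuple -/
theorem hp_tuple {b : ℕ} (hb : 2 ≤ b) (L : IntermediateField ℚ ℝ) [FiniteDimensional ℚ L]
    [Nonempty κ] {α : κ → ℝ} (hα : ∀ k, Irrational (α k)) (hαL : ∀ k, α k ∈ L) (d : ℕ)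
    (hL : ∀ v ∈ L, v ∈ (Submodule.span ℚ (insert 1 (Set.range α))) ^ (d + 1))
    {α' : κ → ℝ} (hα' : ∀ k, α' k = α k ∨ α' k = -α k) : HP b α' (d + 2) := by
  intro F hF
  have hFr : (F : ℝ) ≠ 0 := by exact_mod_cast (by omega : F ≠ 0)
  set β : κ → ℝ := mulT F α' with hβ
  have hirr' : ∀ k, Irrational (α' k) := by
    intro k
    rcases hα' k with h | h
    · rw [h]; exact hα k
    · rw [h]; exact (hα k).neg
  have hβirr : ∀ k, Irrational (β k) := fun k => (hirr' k).natCast_mul (by omega)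
  have hFL : (F : ℝ) ∈ L := L.natCast_mem F
  have hβL : ∀ k, β k ∈ L := by
    intro k
    apply L.mul_mem hFL
    rcases hα' k with h | h
    · rw [h]; exact hαL k
    · rw [h]; exact L.neg_mem (hαL k)
  have hle : Submodule.span ℚ (insert 1 (Set.range α)) ≤
      Submodule.span ℚ (insert 1 (Set.range β)) := by
    rw [Submodule.span_le]
    rintro w (rfl | ⟨k, rfl⟩)
    · exact Submodule.subset_span (Set.mem_insert _ _)
    · have h2 : β k ∈ Submodule.span ℚ (insert 1 (Set.range β)) :=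
        Submodule.subset_span (Set.mem_insert_of_mem _ ⟨k, rfl⟩)
      rcases hα' k with h | h
      · have h3 := Submodule.smul_mem _ ((F : ℚ)⁻¹) h2
        have e : ((F : ℚ)⁻¹) • β k = α k := by
          rw [Rat.smul_def, hβ, mulT, h]
          push_cast
          field_simp
        rw [e] at h3
        exact h3
      · have h3 := Submodule.smul_mem _ (-(F : ℚ)⁻¹) h2
        have e : (-(F : ℚ)⁻¹) • β k = α k := by
          rw [Rat.smul_def, hβ, mulT, h]
          push_cast
          field_simp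
        rw [e] at h3
        exact h3
  have hpow : ∀ n : ℕ, (Submodule.span ℚ (insert 1 (Set.range α))) ^ n ≤
      (Submodule.span ℚ (insert 1 (Set.range β))) ^ n := by
    intro n
    induction n with
    | zero => rw [pow_zero, pow_zero]
    | succ n ih => rw [pow_succ, pow_succ]; exact mul_le_mul' ih hle
  obtain ⟨k0⟩ := ‹Nonempty κ›
  have : Nonempty κ := ⟨k0⟩
  obtain ⟨c, hc, n0, h⟩ := cover_zero hb L hβirr hβL d (fun v hv => hpow _ (hL v hv)) (hβL k0)
    (hβirr k0)
  refine ⟨c / 2, by positivity, n0, fun n hn L' hL' => ?_⟩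
  apply placesT hb β (d + 2) (by omega) _ L' hL'
  intro K u w hcov
  have h1 := h n K K u w u w hn hcov (hcov.mono fun k hk => ⟨k0, hk⟩)
  have e1 : d + 2 - 1 = d + 1 := by omega
  rw [e1]
  have h2 : (K : ℝ) * (K : ℝ) ^ d = (K : ℝ) ^ (d + 1) := by rw [pow_succ']
  rw [h2] at h1
  linarith

end

/-- the number of columns different from `e` -/
noncomputable def othersT {κ : Type} (b : ℕ) (α : κ → ℝ) (e : κ → ℤ) (n : ℕ) : ℕ :=
  open Classical in ((Icc 1 n).filter (fun p => ∃ j, digit b (α j) p ≠ e j)).card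

open Classical in
/-- **all extreme columns** -/
theorem main_all {κ : Type} [Fintype κ] [Nonempty κ] {b : ℕ} (hb : 2 ≤ b)
    (L : IntermediateField ℚ ℝ) [FiniteDimensional ℚ L]
    {α : κ → ℝ} (hα : ∀ k, Irrational (α k)) (hαL : ∀ k, α k ∈ L) (d : ℕ)
    (hL : ∀ v ∈ L, v ∈ (Submodule.span ℚ (insert 1 (Set.range α))) ^ (d + 1))
    (δ : ℝ) (hδ : 0 < δ) :
    ∃ c : ℝ, 0 < c ∧ ∃ n0 : ℕ, ∀ n : ℕ, n0 ≤ n → ∀ M : ℕ, 1 ≤ M → M ≤ b ^ n →
      (((Icc 1 M).filter (fun m : ℕ => ¬ ∀ e : κ → ℤ, (∀ j, e j = 0 ∨ e j = b - 1) →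
        c * ((n:ℝ) ^ (1 / ((d + 2 : ℕ):ℝ)) * (1 + Real.log M) ^ (1 - 1 / ((d + 2 : ℕ):ℝ))) ≤
          othersT b (fun j => m * α j) e n)).card : ℝ) ≤ δ * M := by
  set S : ℝ := (Fintype.card (κ → Bool) : ℝ) with hS
  have hS0 : 0 < S := by
    rw [hS]
    exact_mod_cast Fintype.card_pos
  set A : (κ → Bool) → κ → ℝ := fun σ j => if σ j = true then -α j else α j with hA
  set E : (κ → Bool) → κ → ℤ := fun σ j => if σ j = true then (b:ℤ) - 1 else 0 with hE
  have hirrA : ∀ σ j, Irrational (A σ j) := by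
    intro σ j
    simp only [hA]
    split_ifs
    · exact (hα j).neg
    · exact hα j
  have key : ∀ σ : κ → Bool, ∃ c : ℝ, 0 < c ∧ ∃ n0 : ℕ, ∀ n : ℕ, n0 ≤ n → ∀ M : ℕ, 1 ≤ M →
      M ≤ b ^ n → (((Icc 1 M).filter (fun m : ℕ => ¬ c * ((n:ℝ) ^ (1 / ((d + 2 : ℕ):ℝ)) *
        (1 + Real.log M) ^ (1 - 1 / ((d + 2 : ℕ):ℝ))) ≤ othT b (mulT m (A σ)) n)).card : ℝ) ≤
          δ / S * M := by
    intro σ
    apply main_zeroT hb (hirrA σ) (by omega) _ (δ / S) (by positivity)
    apply hp_tuple hb L hα hαL d hL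
    intro k
    simp only [hA]
    split_ifs
    · exact Or.inr rfl
    · exact Or.inl rfl
  choose c hc n0 h using key
  obtain ⟨c', hc', hcle⟩ : ∃ c' : ℝ, 0 < c' ∧ ∀ σ, c' ≤ c σ := by
    obtain ⟨σ0, -, hσ0⟩ := exists_min_image (univ : Finset (κ → Bool)) c ⟨fun _ => true, mem_univ _⟩
    exact ⟨c σ0, hc σ0, fun σ => hσ0 σ (mem_univ σ)⟩
  refine ⟨c', hc', univ.sup n0, fun n hn M hM1 hM2 => ?_⟩
  set V : ℝ := (n:ℝ) ^ (1 / ((d + 2 : ℕ):ℝ)) * (1 + Real.log M) ^ (1 - 1 / ((d + 2 : ℕ):ℝ)) with hV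
  have hlog : 0 ≤ Real.log M := Real.log_nonneg (by exact_mod_cast hM1)
  have hV0 : 0 ≤ V := by positivity
  have hsub : ((Icc 1 M).filter (fun m : ℕ => ¬ ∀ e : κ → ℤ, (∀ j, e j = 0 ∨ e j = b - 1) →
        c' * V ≤ othersT b (fun j => m * α j) e n)) ⊆
      (univ : Finset (κ → Bool)).biUnion (fun σ => (Icc 1 M).filter (fun m : ℕ =>
        ¬ c σ * V ≤ othT b (mulT m (A σ)) n)) := by
    intro m hm
    rw [mem_filter] at hm
    obtain ⟨hm1, hm2⟩ := hm
    push Not at hm2
    obtain ⟨e, he, hlt⟩ := hm2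
    rw [mem_biUnion]
    refine ⟨fun j => decide (e j = (b:ℤ) - 1), mem_univ _, mem_filter.2 ⟨hm1, ?_⟩⟩
    set σ : κ → Bool := fun j => decide (e j = (b:ℤ) - 1) with hσ
    intro hcon
    have h1 : othersT b (fun j => m * α j) e n = othT b (mulT m (A σ)) n := by
      have hj : ∀ p j, digit b (mulT m (A σ) j) p ≠ 0 ↔ digit b (m * α j) p ≠ e j := by
        intro p j
        by_cases hej : e j = (b:ℤ) - 1
        · have e1 : mulT (m:ℝ) (A σ) j = -(m * α j) := by
            simp only [mulT, hA, hσ, hej, decide_true, if_true]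
            ring
          have hirr : Irrational ((m:ℝ) * α j) :=
            (hα j).natCast_mul (by have := (mem_Icc.1 hm1).1; omega)
          rw [e1, Pool.Agent.H820R3.DG.digit_neg hb hirr, hej]
          constructor
          · intro h1 h2
            exact h1 (by rw [h2]; ring)
          · intro h1 h2
            exact h1 (by linarith)
        · have e0 : e j = 0 := (he j).resolve_right hej
          have e1 : mulT (m:ℝ) (A σ) j = m * α j := by
            simp only [mulT, hA, hσ, hej, decide_false, Bool.false_eq_true, if_false]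
          rw [e1, e0]
      have h3 : (fun p => ∃ j, digit b (m * α j) p ≠ e j) =
          fun p => ∃ j, digit b (mulT m (A σ) j) p ≠ 0 := by
        funext p
        apply propext
        constructor
        · rintro ⟨j, h2⟩
          exact ⟨j, (hj p j).2 h2⟩
        · rintro ⟨j, h2⟩
          exact ⟨j, (hj p j).1 h2⟩
      unfold othersT othT
      simp only [h3]
      congr!
    rw [h1] at hlt
    have h2 : c' * V ≤ c σ * V := mul_le_mul_of_nonneg_right (hcle σ) hV0
    linarith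
  have h1 : (((Icc 1 M).filter (fun m : ℕ => ¬ ∀ e : κ → ℤ, (∀ j, e j = 0 ∨ e j = b - 1) →
        c' * V ≤ othersT b (fun j => m * α j) e n)).card : ℝ) ≤
      ∑ σ : κ → Bool, (((Icc 1 M).filter (fun m : ℕ =>
        ¬ c σ * V ≤ othT b (mulT m (A σ)) n)).card : ℝ) := by
    have h2 := (card_le_card hsub).trans card_biUnion_le
    exact_mod_cast h2
  refine h1.trans ((sum_le_sum fun σ _ => h σ n ((le_sup (mem_univ σ)).trans hn) M hM1 hM2).trans ?_)
  rw [sum_const, card_univ, nsmul_eq_mul, ← hS]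
  apply le_of_eq
  field_simp

end Pool.Agent.L7h46.CT
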