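import Pool.Agent.L7h46.CT.Cov
import Pool.Agent.R474.AG.Auto

/-!
# Coverings of the columns of digits of a tuple of algebraic numbers
-/

set_option autoImplicit false

open Finset Filter IntermediateField Module

namespace Pool.Agent.L7h46.CT

open Pool.Agent.H726R3.Tup
open Pool.Agent.H726R3.Joint (digit digit_fract digit_neg fract_pos' fract_irr fract_alg span_neg_le
  K_tendsto X)

/-- `K` intervals `[u i, w i]` cover all `k ∈ [1, N]` with the property `P` -/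
def Covers (P : ℕ → Prop) (N K : ℕ) (u w : ℕ → ℕ) : Prop :=
  (∀ i < K, u i ≤ w i) ∧ ∀ k ∈ Icc 1 N, P k → ∃ i < K, u i ≤ k ∧ k ≤ w i

/-- the total length of the intervals -/
def total (K : ℕ) (u w : ℕ → ℕ) : ℕ := ∑ i ∈ range K, (w i + 1 - u i)

lemma Covers.mono {P P' : ℕ → Prop} {N K : ℕ} {u w : ℕ → ℕ} (h : Covers P N K u w)
    (hP : ∀ k, P' k → P k) : Covers P' N K u w :=
  ⟨h.1, fun k hk hk' => h.2 k hk (hP k hk')⟩

lemma le_total {P : ℕ → Prop} {N K : ℕ} {u w : ℕ → ℕ} (h : Covers P N K u w) : K ≤ total K u w := by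
  unfold total
  have h1 : ∑ j ∈ range K, 1 ≤ ∑ j ∈ range K, (w j + 1 - u j) := sum_le_sum fun j hj => by
    have := h.1 j (mem_range.1 hj)
    omega
  simpa using h1

section
variable {κ : Type} [Fintype κ]

/-- the digit zero -/
theorem cover_zero {b : ℕ} (hb : 2 ≤ b) (L : IntermediateField ℚ ℝ) [FiniteDimensional ℚ L]
    [Nonempty κ] {α : κ → ℝ} (hα : ∀ k, Irrational (α k)) (hαL : ∀ k, α k ∈ L) (d : ℕ)
    (hL : ∀ v ∈ L, v ∈ (Submodule.span ℚ (insert 1 (Set.range α))) ^ (d + 1))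
    {θ : ℝ} (hθ : θ ∈ L) (hirr : Irrational θ) :
    ∃ c : ℝ, 0 < c ∧ ∃ N₀ : ℕ, ∀ (N K K' : ℕ) (u w u' w' : ℕ → ℕ), N₀ ≤ N →
      Covers (fun k => ∃ j, digit b (α j) k ≠ 0) N K u w →
      Covers (fun k => digit b θ k ≠ 0) N K' u' w' →
      c * N ≤ (K : ℝ) ^ (d + 1) * (total K' u' w' : ℝ) + K' * (K : ℝ) ^ d * (total K u w : ℝ) := by
  classical
  set y : κ → ℝ := fun k => Int.fract (α k) with hy
  have hy0 : ∀ k, 0 < y k := fun k => fract_pos' (hα k)
  have hy1 : ∀ k, y k < 1 := fun k => Int.fract_lt_one _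
  have halg : IsAlgebraic ℚ θ := by
    have h2 : IsAlgebraic ℚ (⟨θ, hθ⟩ : L) := Algebra.IsAlgebraic.isAlgebraic _
    exact h2.algebraMap (A := ℝ)
  have hle : Submodule.span ℚ (insert 1 (Set.range α)) ≤
      Submodule.span ℚ (insert 1 (Set.range y)) := by
    rw [Submodule.span_le]
    rintro w (rfl | ⟨k, rfl⟩)
    · exact Submodule.subset_span (Set.mem_insert _ _)
    · have h1 : (1 : ℝ) ∈ Submodule.span ℚ (insert 1 (Set.range y)) :=
        Submodule.subset_span (Set.mem_insert _ _)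
      have h2 : y k ∈ Submodule.span ℚ (insert 1 (Set.range y)) :=
        Submodule.subset_span (Set.mem_insert_of_mem _ ⟨k, rfl⟩)
      have h3 := Submodule.add_mem _ (Submodule.smul_mem _ (⌊α k⌋ : ℚ) h1) h2
      have e : (⌊α k⌋ : ℚ) • (1 : ℝ) + y k = α k := by
        rw [Rat.smul_def, mul_one]
        push_cast
        exact Int.floor_add_fract (α k)
      rw [e] at h3
      exact h3
  have hpow : ∀ n : ℕ, (Submodule.span ℚ (insert 1 (Set.range α))) ^ n ≤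
      (Submodule.span ℚ (insert 1 (Set.range y))) ^ n := by
    intro n
    induction n with
    | zero => rw [pow_zero, pow_zero]
    | succ n ih => rw [pow_succ, pow_succ]; exact mul_le_mul' ih hle
  have hintL : ∀ n : ℤ, (n : ℝ) ∈ L := fun n => L.intCast_mem n
  have hyL : ∀ k, y k ∈ L := fun k => L.sub_mem (hαL k) (hintL _)
  have hYL : YY y ∈ L := L.add_mem L.one_mem (L.sum_mem fun k _ => hyL k)
  have hzL : Int.fract θ ∈ L := L.sub_mem hθ (hintL _)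
  have hmem : Int.fract θ * YY y ^ (d + 1) ∈ L := L.mul_mem hzL (_root_.pow_mem hYL (d + 1))
  obtain ⟨q, hq, hD⟩ := span_pow_le hb hy0 hy1 (d + 1) (hpow _ (hL _ hmem))
  obtain ⟨c, hc, n0, h⟩ := cover_two hb hy0 hy1 (fract_pos' hirr) (Int.fract_lt_one θ)
    (fract_alg halg) (fract_irr hirr) d hq hD
  obtain ⟨k0⟩ := ‹Nonempty κ›
  obtain ⟨n1, hn1⟩ := eventually_atTop.1
    ((K_tendsto hb (hy0 k0) (fract_irr (hα k0))).eventually_ge_atTop 1)
  refine ⟨c / 2 ^ (d + 1), by positivity, max n0 n1, fun N K K' u w u' w' hN hcov hcov' => ?_⟩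
  have h1 := h N (K + 1) K' (Fin.cons 0 (fun i : Fin K => u i)) (Fin.cons 0 (fun i : Fin K => w i))
    (fun i => u' i) (fun i => w' i) ((le_max_left _ _).trans hN) (by
      intro i
      refine Fin.cases ?_ (fun j => ?_) i
      · simp
      · simpa using hcov.1 j j.2) (fun i => hcov'.1 i i.2) (by
      intro k hk hx
      rcases Nat.eq_zero_or_pos k with h0 | h0
      · exact ⟨0, by simp, by simp [h0]⟩
      · obtain ⟨k', rfl⟩ : ∃ k', k = k' + 1 := ⟨k - 1, by omega⟩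
        rw [ff_succ] at hx
        unfold X at hx
        obtain ⟨j, -, hj⟩ := exists_ne_zero_of_sum_ne_zero (Nat.one_le_iff_ne_zero.1 hx)
        obtain ⟨i, hi, h2, h3⟩ := hcov.2 (k' + 1) (mem_Icc.2 ⟨h0, hk⟩) ⟨j, by
          rw [digit_fract _ h0]
          exact_mod_cast hj⟩
        exact ⟨Fin.succ ⟨i, hi⟩, by rw [Fin.cons_succ]; exact h2, by rw [Fin.cons_succ]; exact h3⟩)
    (by
      intro k hk hx
      rcases Nat.eq_zero_or_pos k with h0 | h0
      · rw [h0, Pool.Agent.H394R2.Ones.x_zero (fract_pos' hirr) (Int.fract_lt_one θ)] at hx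
        omega
      · obtain ⟨i, hi, h2, h3⟩ := hcov'.2 k (mem_Icc.2 ⟨h0, hk⟩) (by
          show digit b θ k ≠ 0
          rw [digit_fract _ h0]
          have : Pool.Agent.H394R2.Ones.x b (Int.fract θ) k ≠ 0 := by omega
          exact_mod_cast this)
        exact ⟨⟨i, hi⟩, h2, h3⟩)
  rw [Fin.sum_univ_succ] at h1
  simp only [Fin.cons_zero, Fin.cons_succ] at h1
  rw [Fin.sum_univ_eq_sum_range (fun i => w i + 1 - u i) K,
    Fin.sum_univ_eq_sum_range (fun i => w' i + 1 - u' i) K'] at h1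
  have hKW := le_total hcov
  -- there is an interval
  have hK1 : 1 ≤ K := by
    by_contra hcon
    have hK0 : K = 0 := by omega
    have h2 := hn1 N ((le_max_right _ _).trans hN)
    have h3 : Pool.Agent.H394R2.Ones.K b (y k0) N = 0 := by
      unfold Pool.Agent.H394R2.Ones.K
      apply sum_eq_zero
      intro i hi
      rcases Nat.eq_zero_or_pos i with h0 | h0
      · rw [h0, Pool.Agent.H394R2.Ones.x_zero (hy0 k0) (hy1 k0)]
      · by_contra hne
        obtain ⟨j, hj, -, -⟩ := hcov.2 i (mem_Icc.2 ⟨h0, by have := mem_range.1 hi; omega⟩)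
          ⟨k0, by
            rw [digit_fract _ h0]
            exact_mod_cast hne⟩
        omega
    omega
  change c * N ≤ ((K + 1 : ℕ) : ℝ) ^ (d + 1) * (total K' u' w' : ℝ) +
    K' * ((K + 1 : ℕ) : ℝ) ^ d * ((0 + 1 - 0 + total K u w : ℕ) : ℝ) at h1
  have hKR : (1 : ℝ) ≤ K := by exact_mod_cast hK1
  have hWR : (1 : ℝ) ≤ total K u w := by exact_mod_cast hK1.trans hKW
  push_cast at h1
  rw [div_mul_eq_mul_div, div_le_iff₀ (by positivity)]
  have h2 : ((K : ℝ) + 1) ^ (d + 1) ≤ (2 * (K : ℝ)) ^ (d + 1) :=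
    pow_le_pow_left₀ (by positivity) (by linarith) _
  have h3 : ((K : ℝ) + 1) ^ d ≤ (2 * (K : ℝ)) ^ d := pow_le_pow_left₀ (by positivity) (by linarith) _
  calc c * N ≤ _ := h1
    _ ≤ (2 * (K : ℝ)) ^ (d + 1) * (total K' u' w' : ℝ) +
        K' * (2 * (K : ℝ)) ^ d * (2 * (total K u w : ℝ)) := by
      gcongr
      linarith
    _ = _ := by rw [mul_pow, mul_pow]; ring

/-- the general theorem -/
theorem cover_main {b : ℕ} (hb : 2 ≤ b) (L : IntermediateField ℚ ℝ) [FiniteDimensional ℚ L]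
    [Nonempty κ] {α : κ → ℝ} (hα : ∀ k, Irrational (α k)) (hαL : ∀ k, α k ∈ L) {m : ℕ}
    (hm : 1 ≤ m) (hL : ∀ v ∈ L, v ∈ (Submodule.span ℚ (insert 1 (Set.range α))) ^ m)
    {θ : ℝ} (hθ : θ ∈ L) (hirr : Irrational θ) {d : ℤ} {e : κ → ℤ}
    (hd : d = 0 ∨ d = b - 1) (he : ∀ k, e k = 0 ∨ e k = b - 1) :
    ∃ c : ℝ, 0 < c ∧ ∃ N₀ : ℕ, ∀ (N K K' : ℕ) (u w u' w' : ℕ → ℕ), N₀ ≤ N →
      Covers (fun k => ∃ j, digit b (α j) k ≠ e j) N K u w →
      Covers (fun k => digit b θ k ≠ d) N K' u' w' →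
      c * N ≤ (K : ℝ) ^ m * (total K' u' w' : ℝ) + K' * (K : ℝ) ^ (m - 1) * (total K u w : ℝ) := by
  classical
  obtain ⟨m, rfl⟩ : ∃ n, m = n + 1 := ⟨m - 1, by omega⟩
  have hflip : ∀ ζ : ℝ, Irrational ζ → ∀ k, digit b (-ζ) k ≠ 0 ↔ digit b ζ k ≠ (b : ℤ) - 1 := by
    intro ζ hζ k
    rw [digit_neg hb hζ]
    constructor
    · intro h1 h2
      exact h1 (by rw [h2]; ring)
    · intro h1 h2
      exact h1 (by linarith)
  obtain ⟨θ', hθ', hirr', hcθ⟩ : ∃ θ' : ℝ, θ' ∈ L ∧ Irrational θ' ∧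
      ∀ k, digit b θ' k ≠ 0 ↔ digit b θ k ≠ d := by
    rcases hd with rfl | rfl
    · exact ⟨θ, hθ, hirr, fun N => Iff.rfl⟩
    · exact ⟨-θ, L.neg_mem hθ, hirr.neg, hflip θ hirr⟩
  have h1 : ∀ k, ∃ w : ℝ, (w = α k ∨ w = -α k) ∧ Irrational w ∧
      ∀ i, digit b w i ≠ 0 ↔ digit b (α k) i ≠ e k := by
    intro k
    rcases he k with h | h
    · rw [h]; exact ⟨α k, Or.inl rfl, hα k, fun N => Iff.rfl⟩
    · rw [h]; exact ⟨-α k, Or.inr rfl, (hα k).neg, hflip _ (hα k)⟩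
  choose α' hα'1 hα'2 hα'3 using h1
  have hle := span_neg_le (ω := α) (ω' := α') (fun k => by
    rcases hα'1 k with h | h
    · left; rw [h]
    · right; rw [h, neg_neg])
  have hpow : ∀ n : ℕ, (Submodule.span ℚ (insert 1 (Set.range α))) ^ n ≤
      (Submodule.span ℚ (insert 1 (Set.range α'))) ^ n := by
    intro n
    induction n with
    | zero => rw [pow_zero, pow_zero]
    | succ n ih => rw [pow_succ, pow_succ]; exact mul_le_mul' ih hle
  have hα'L : ∀ k, α' k ∈ L := by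
    intro k
    rcases hα'1 k with h | h
    · rw [h]; exact hαL k
    · rw [h]; exact L.neg_mem (hαL k)
  obtain ⟨c, hc, N₀, h⟩ := cover_zero hb L hα'2 hα'L m (fun v hv => hpow _ (hL v hv)) hθ' hirr'
  refine ⟨c, hc, N₀, fun N K K' u w u' w' hN hcov hcov' => ?_⟩
  exact h N K K' u w u' w' hN
    (hcov.mono fun k ⟨j, hj⟩ => ⟨j, (hα'3 j k).1 hj⟩) (hcov'.mono fun k hk => (hcθ k).1 hk)

end

section
variable {n : ℕ} {α : Fin n → ℝ}

/-- linearly independent tuples, with an arbitrary irrational element of the field -/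
theorem cover_indep {b : ℕ} (hb : 2 ≤ b) (hn : 1 ≤ n) (halg : ∀ k, IsAlgebraic ℚ (α k))
    (hli : LinearIndependent ℚ (Fin.cons 1 α : Fin (n + 1) → ℝ)) {e : Fin n → ℤ}
    (he : ∀ k, e k = 0 ∨ e k = b - 1) {θ : ℝ} (hθ : θ ∈ adjoin ℚ (Set.range α))
    (hirr : Irrational θ) {d : ℤ} (hd : d = 0 ∨ d = b - 1) :
    ∃ c : ℝ, 0 < c ∧ ∃ N₀ : ℕ, ∀ (N K K' : ℕ) (u w u' w' : ℕ → ℕ), N₀ ≤ N →
      Covers (fun k => ∃ j, digit b (α j) k ≠ e j) N K u w →
      Covers (fun k => digit b θ k ≠ d) N K' u' w' →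
      c * N ≤ (K : ℝ) ^ (finrank ℚ (adjoin ℚ (Set.range α)) - n) * (total K' u' w' : ℝ) +
        K' * (K : ℝ) ^ (finrank ℚ (adjoin ℚ (Set.range α)) - n - 1) * (total K u w : ℝ) := by
  have : Nonempty (Fin n) := ⟨⟨0, hn⟩⟩
  have hL := fd_L halg
  have hcard := card_le halg hli
  have hmem : ∀ k, α k ∈ adjoin ℚ (Set.range α) := fun k => subset_adjoin ℚ _ ⟨k, rfl⟩
  exact cover_main hb _ (irr_of_li hli) hmem (by omega) (reach halg hli) hθ hirr hd he

/-- linearly independent tuples -/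
theorem cover_self {b : ℕ} (hb : 2 ≤ b) (hn : 1 ≤ n) (halg : ∀ k, IsAlgebraic ℚ (α k))
    (hli : LinearIndependent ℚ (Fin.cons 1 α : Fin (n + 1) → ℝ)) {e : Fin n → ℤ}
    (he : ∀ k, e k = 0 ∨ e k = b - 1) :
    ∃ c : ℝ, 0 < c ∧ ∃ N₀ : ℕ, ∀ (N K : ℕ) (u w : ℕ → ℕ), N₀ ≤ N →
      Covers (fun k => ∃ j, digit b (α j) k ≠ e j) N K u w →
      c * N ≤ (K : ℝ) ^ (finrank ℚ (adjoin ℚ (Set.range α)) - n) * (total K u w : ℝ) := by
  obtain ⟨c, hc, N₀, h⟩ := cover_indep hb hn halg hli he (θ := α ⟨0, hn⟩)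
    (subset_adjoin ℚ _ ⟨_, rfl⟩) (irr_of_li hli _) (he ⟨0, hn⟩)
  refine ⟨c / 2, by positivity, N₀, fun N K u w hN hcov => ?_⟩
  have h1 := h N K K u w u w hN hcov (hcov.mono fun k hk => ⟨_, hk⟩)
  have hcard := card_le halg hli
  set m := finrank ℚ (adjoin ℚ (Set.range α)) - n with hm
  have hm1 : m = (m - 1) + 1 := by omega
  have h2 : (K : ℝ) * (K : ℝ) ^ (m - 1) = (K : ℝ) ^ m := by
    rw [← pow_succ', ← hm1]
  rw [h2] at h1
  linarith

end

end Pool.Agent.L7h46.CT
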